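import Pool.Agent.R38.QP.Stm

/-!
# Project QP, part BOX: the number of points in a box (helper400)
-/

set_option autoImplicit false

namespace Pool.Agent.R38.QP

open Matrix Finset
open Pool.Agent.H548.WM (ht bx Rep mem_bx card_bx_le le_ht')
open Pool.Agent.R38.NC (qf Prim)

namespace Box

/-- one plus the sum of the absolute values of the entries -/
def mx4 (M : Matrix (Fin 4) (Fin 4) ℤ) : ℕ := 1 + ∑ i, ∑ j, (M i j).natAbs

theorem q4_le (M : Matrix (Fin 4) (Fin 4) ℤ) {t : Fin 4 → ℤ} {A : ℕ} (htA : ht t ≤ A) :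
    (q4 M t).natAbs ≤ mx4 M * A ^ 2 := by
  have h1 : ∀ i, |t i| ≤ (A : ℤ) := fun i => (le_ht' t i).trans (by exact_mod_cast htA)
  have hA : (0 : ℤ) ≤ A := Int.natCast_nonneg _
  have h2 : |q4 M t| ≤ ∑ i, ∑ j, |M i j| * (A : ℤ) ^ 2 := by
    have e : q4 M t = ∑ i, ∑ j, t i * (M i j * t j) := by
      simp only [q4, dotProduct, mulVec, Finset.mul_sum]
    rw [e]
    refine (Finset.abs_sum_le_sum_abs _ _).trans (Finset.sum_le_sum fun i _ => ?_)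
    refine (Finset.abs_sum_le_sum_abs _ _).trans (Finset.sum_le_sum fun j _ => ?_)
    rw [abs_mul, abs_mul]
    calc |t i| * (|M i j| * |t j|) ≤ (A : ℤ) * (|M i j| * A) := by
          have := h1 i
          have := h1 j
          gcongr
      _ = |M i j| * (A : ℤ) ^ 2 := by ring
  have h3 : (∑ i, ∑ j, |M i j| * (A : ℤ) ^ 2) = ((∑ i, ∑ j, (M i j).natAbs : ℕ) : ℤ) * (A : ℤ) ^ 2 := by
    push_cast
    simp only [Finset.sum_mul]
  rw [h3, Int.abs_eq_natAbs] at h2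
  have h4 : (q4 M t).natAbs ≤ (∑ i, ∑ j, (M i j).natAbs) * A ^ 2 := by exact_mod_cast h2
  refine h4.trans (Nat.mul_le_mul_right _ ?_)
  exact Nat.le_add_left _ _

end Box

open Box in
/-- the case `B ≤ A` -/
theorem box_ge (h1 : S_PLN) (h2 : S_SUMD) (q : Matrix (Fin 4) (Fin 4) ℤ)
    (hq : q.IsSymm) (hd : q.det ≠ 0) (ε : ℝ) (hε : 0 < ε) : ∃ C : ℝ, 0 ≤ C ∧ ∀ A B : ℕ,
    1 ≤ A → 1 ≤ B → B ≤ A →
    ((PP q A B).card : ℝ) ≤ C * ((A : ℝ) * (B : ℝ) ^ 3) * ((A : ℝ) * B) ^ ε := by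
  classical
  obtain ⟨C3, hC3, hsum⟩ := h2 q hq hd
  -- the divisor bound
  obtain ⟨C1, hC1, hdiv⟩ := Pool.Agent.Helper112.divisor_bound (ε / 8) (by positivity)
  set m : ℝ := 2 * (mx4 q.adjugate : ℝ) with hm
  set D : ℝ := max C1 1 * m ^ (ε / 8) with hD
  have hmx : (1 : ℝ) ≤ mx4 q.adjugate := by
    have : 1 ≤ mx4 q.adjugate := Nat.le_add_right _ _
    exact_mod_cast this
  have hm1 : (1 : ℝ) ≤ m := by rw [hm]; linarith
  have hD1 : 1 ≤ D := by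
    have h1 : (1 : ℝ) ≤ m ^ (ε / 8) := Real.one_le_rpow hm1 (by positivity)
    have h2 : (1 : ℝ) ≤ max C1 1 := le_max_right _ _
    rw [hD]
    nlinarith
  set K : ℝ := (q.det.natAbs : ℝ) with hK
  refine ⟨D ^ 2 * (891 + 40 * K * C3 * (1 + 2 / ε)), by positivity, ?_⟩
  intro A B hA hB hBA
  have hA1 : (1 : ℝ) ≤ A := by exact_mod_cast hA
  have hB1 : (1 : ℝ) ≤ B := by exact_mod_cast hB
  have hBA' : (B : ℝ) ≤ A := by exact_mod_cast hBA
  set τ : ℝ := D * (B : ℝ) ^ (ε / 4) with hτ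
  have hB4 : (1 : ℝ) ≤ (B : ℝ) ^ (ε / 4) := Real.one_le_rpow hB1 (by positivity)
  have hτ1 : 1 ≤ τ := by
    rw [hτ]
    nlinarith
  have hτd : ∀ t : Fin 4 → ℤ, ht t ≤ B → q4 q.adjugate t ≠ 0 →
      ((Nat.divisors (2 * (q4 q.adjugate t).natAbs)).card : ℝ) ≤ τ := by
    intro t htB hdet
    have hpos : 1 ≤ (q4 q.adjugate t).natAbs := Nat.one_le_iff_ne_zero.2 (Int.natAbs_ne_zero.2 hdet)
    refine (hdiv _ (by omega)).trans ?_
    have h4 := q4_le q.adjugate htB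
    have h5 : ((2 * (q4 q.adjugate t).natAbs : ℕ) : ℝ) ≤ m * (B : ℝ) ^ 2 := by
      have h6 : 2 * (q4 q.adjugate t).natAbs ≤ 2 * mx4 q.adjugate * B ^ 2 := by
        calc 2 * (q4 q.adjugate t).natAbs ≤ 2 * (mx4 q.adjugate * B ^ 2) :=
              Nat.mul_le_mul_left _ h4
          _ = 2 * mx4 q.adjugate * B ^ 2 := by ring
      rw [hm]
      exact_mod_cast h6
    calc C1 * ((2 * (q4 q.adjugate t).natAbs : ℕ) : ℝ) ^ (ε / 8)
        ≤ max C1 1 * (m * (B : ℝ) ^ 2) ^ (ε / 8) := by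
          have h7 : ((2 * (q4 q.adjugate t).natAbs : ℕ) : ℝ) ^ (ε / 8) ≤
              (m * (B : ℝ) ^ 2) ^ (ε / 8) :=
            Real.rpow_le_rpow (Nat.cast_nonneg _) h5 (by positivity)
          exact mul_le_mul (le_max_left _ _) h7 (by positivity) (by positivity)
      _ = τ := by
          rw [Real.mul_rpow (by positivity) (by positivity), ← Real.rpow_natCast (B : ℝ) 2,
            ← Real.rpow_mul (by positivity), hτ, hD, mul_assoc]
          congr 3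
          push_cast
          ring
  -- the planes
  set T := (bx 4 B).filter fun t => Rep t ∧ q4 q.adjugate t ≠ 0 with hTd
  have hsub : PP q A B ⊆ T.biUnion fun t =>
      ((bx 4 A).filter fun x => Rep x ∧ q4 q x = 0 ∧ t ⬝ᵥ x = 0).image fun x => (x, t) := by
    rintro ⟨x, t⟩ hx
    unfold PP at hx
    rw [mem_filter, mem_product] at hx
    obtain ⟨⟨e1, e2⟩, e3, e4, e5, e6, e7, e8, e9⟩ := hx
    rw [mem_biUnion]
    refine ⟨t, ?_, ?_⟩
    · rw [hTd, mem_filter]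
      exact ⟨e2, e4, e9⟩
    · rw [mem_image]
      refine ⟨x, ?_, rfl⟩
      rw [mem_filter]
      exact ⟨e1, e3, e7, by rw [dotProduct_comm]; exact e8⟩
  have hone : ∀ t ∈ T,
      ((((bx 4 A).filter fun x => Rep x ∧ q4 q x = 0 ∧ t ⬝ᵥ x = 0).card : ℕ) : ℝ) ≤
      τ ^ 2 * (11 + 40 * K * A *
        (1 / (((ht t : ℝ) * ((q4 q.adjugate t).natAbs : ℝ)) ^ ((1 : ℝ) / 3)))) := by
    intro t ht'
    rw [hTd, mem_filter, mem_bx] at ht'
    obtain ⟨e1, e2, e3⟩ := ht'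
    have h4 := h1 q hq hd t e2 e3 A
      ((bx 4 A).filter fun x => Rep x ∧ q4 q x = 0 ∧ t ⬝ᵥ x = 0) hA (fun x hx => by
        rw [mem_filter, mem_bx] at hx
        exact ⟨hx.2.1, hx.1, hx.2.2.1, hx.2.2.2⟩)
    refine h4.trans ?_
    have h5 := hτd t e1 e3
    set w : ℝ := ((ht t : ℝ) * ((q4 q.adjugate t).natAbs : ℝ)) ^ ((1 : ℝ) / 3) with hw
    have hw0 : 0 ≤ w := by positivity
    have h6 : (0 : ℝ) ≤ 40 * (K * A) / w := by positivity
    have h7 : ((Nat.divisors (2 * (q4 q.adjugate t).natAbs)).card : ℝ) ^ 2 ≤ τ ^ 2 := by gcongr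
    have h8 : 1 ≤ τ ^ 2 := one_le_pow₀ hτ1
    calc (1 : ℝ) + ((Nat.divisors (2 * (q4 q.adjugate t).natAbs)).card : ℝ) ^ 2 *
          (10 + 40 * (K * A) / w)
        ≤ τ ^ 2 * 1 + τ ^ 2 * (10 + 40 * (K * A) / w) := by
          have h9 := mul_le_mul_of_nonneg_right h7
            (by positivity : (0 : ℝ) ≤ 10 + 40 * (K * A) / w)
          linarith
      _ = τ ^ 2 * (11 + 40 * K * A * (1 / w)) := by
          ring
  have hTc : (T.card : ℝ) ≤ 81 * (B : ℝ) ^ 4 := by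
    have h4 := card_bx_le 4 hB
    have h5 : (T.card : ℝ) ≤ ((bx 4 B).card : ℝ) := by
      exact_mod_cast Finset.card_le_card (Finset.filter_subset _ _)
    calc (T.card : ℝ) ≤ (3 * (B : ℝ)) ^ 4 := h5.trans h4
      _ = 81 * (B : ℝ) ^ 4 := by ring
  have hTs : ∑ t ∈ T, (1 / (((ht t : ℝ) * ((q4 q.adjugate t).natAbs : ℝ)) ^ ((1 : ℝ) / 3))) ≤
      C3 * (B : ℝ) ^ 3 * (1 + Real.log B) := by
    refine le_trans ?_ (hsum B hB)
    refine Finset.sum_le_sum_of_subset_of_nonneg ?_ fun t _ _ => by positivity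
    intro t ht'
    rw [hTd, mem_filter] at ht'
    rw [mem_filter]
    exact ⟨ht'.1, ht'.2.2⟩
  have hlog : 1 + Real.log B ≤ (1 + 2 / ε) * (B : ℝ) ^ (ε / 2) := by
    have h4 : Real.log B ≤ (B : ℝ) ^ (ε / 2) / (ε / 2) :=
      Real.log_le_rpow_div (by positivity) (by positivity)
    have h5 : (1 : ℝ) ≤ (B : ℝ) ^ (ε / 2) := Real.one_le_rpow hB1 (by positivity)
    have h6 : (B : ℝ) ^ (ε / 2) / (ε / 2) = 2 / ε * (B : ℝ) ^ (ε / 2) := by
      field_simp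
    rw [h6] at h4
    linarith
  have hB2 : (1 : ℝ) ≤ (B : ℝ) ^ (ε / 2) := Real.one_le_rpow hB1 (by positivity)
  have hτsq : τ ^ 2 = D ^ 2 * (B : ℝ) ^ (ε / 2) := by
    rw [hτ, mul_pow, ← Real.rpow_natCast ((B : ℝ) ^ (ε / 4)) 2, ← Real.rpow_mul (by positivity)]
    congr 2
    push_cast
    ring
  have hK0 : 0 ≤ K := by rw [hK]; positivity
  calc ((PP q A B).card : ℝ)
      ≤ ((T.biUnion fun t => ((bx 4 A).filter fun x => Rep x ∧ q4 q x = 0 ∧ t ⬝ᵥ x = 0).image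
          fun x => (x, t)).card : ℝ) := by exact_mod_cast Finset.card_le_card hsub
    _ ≤ ∑ t ∈ T, ((((bx 4 A).filter fun x => Rep x ∧ q4 q x = 0 ∧ t ⬝ᵥ x = 0).card : ℕ) : ℝ) := by
        have e1 := Finset.card_biUnion_le (s := T) (t := fun t =>
          ((bx 4 A).filter fun x => Rep x ∧ q4 q x = 0 ∧ t ⬝ᵥ x = 0).image fun x => (x, t))
        have e2 := e1.trans (Finset.sum_le_sum fun x _ => Finset.card_image_le)
        exact_mod_cast e2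
    _ ≤ ∑ t ∈ T, τ ^ 2 *
          (11 + 40 * K * A *
            (1 / (((ht t : ℝ) * ((q4 q.adjugate t).natAbs : ℝ)) ^ ((1 : ℝ) / 3)))) :=
        Finset.sum_le_sum hone
    _ = τ ^ 2 * (11 * T.card + 40 * K * A *
          ∑ t ∈ T, (1 / (((ht t : ℝ) * ((q4 q.adjugate t).natAbs : ℝ)) ^ ((1 : ℝ) / 3)))) := by
        rw [← Finset.mul_sum, Finset.sum_add_distrib, Finset.sum_const, ← Finset.mul_sum,
          nsmul_eq_mul]
        ring
    _ ≤ τ ^ 2 * (11 * (81 * (B : ℝ) ^ 4) + 40 * K * A *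
          (C3 * (B : ℝ) ^ 3 * ((1 + 2 / ε) * (B : ℝ) ^ (ε / 2)))) := by
        have e1 : ∑ t ∈ T,
            (1 / (((ht t : ℝ) * ((q4 q.adjugate t).natAbs : ℝ)) ^ ((1 : ℝ) / 3))) ≤
            C3 * (B : ℝ) ^ 3 * ((1 + 2 / ε) * (B : ℝ) ^ (ε / 2)) :=
          hTs.trans (mul_le_mul_of_nonneg_left hlog (by positivity))
        gcongr
    _ ≤ τ ^ 2 * (891 * ((A : ℝ) * (B : ℝ) ^ 3) * (B : ℝ) ^ (ε / 2) + 40 * K * A *
          (C3 * (B : ℝ) ^ 3 * ((1 + 2 / ε) * (B : ℝ) ^ (ε / 2)))) := by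
        have e1 : 11 * (81 * (B : ℝ) ^ 4) ≤ 891 * ((A : ℝ) * (B : ℝ) ^ 3) * (B : ℝ) ^ (ε / 2) := by
          have e2 : (B : ℝ) ^ 4 ≤ (A : ℝ) * (B : ℝ) ^ 3 := by
            calc (B : ℝ) ^ 4 = (B : ℝ) * (B : ℝ) ^ 3 := by ring
              _ ≤ (A : ℝ) * (B : ℝ) ^ 3 := mul_le_mul_of_nonneg_right hBA' (by positivity)
          have e3 : (A : ℝ) * (B : ℝ) ^ 3 ≤ (A : ℝ) * (B : ℝ) ^ 3 * (B : ℝ) ^ (ε / 2) :=
            le_mul_of_one_le_right (by positivity) hB2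
          nlinarith
        gcongr
    _ = D ^ 2 * (891 + 40 * K * C3 * (1 + 2 / ε)) * ((A : ℝ) * (B : ℝ) ^ 3) *
          ((B : ℝ) ^ (ε / 2) * (B : ℝ) ^ (ε / 2)) := by
        rw [hτsq]
        ring
    _ = D ^ 2 * (891 + 40 * K * C3 * (1 + 2 / ε)) * ((A : ℝ) * (B : ℝ) ^ 3) * (B : ℝ) ^ ε := by
        rw [← Real.rpow_add (by positivity)]
        congr 2
        ring
    _ ≤ D ^ 2 * (891 + 40 * K * C3 * (1 + 2 / ε)) * ((A : ℝ) * (B : ℝ) ^ 3) *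
          ((A : ℝ) * B) ^ ε := by
        have e1 : (B : ℝ) ^ ε ≤ ((A : ℝ) * B) ^ ε :=
          Real.rpow_le_rpow (by positivity) (le_mul_of_one_le_left (by positivity) hA1) hε.le
        exact mul_le_mul_of_nonneg_left e1 (by positivity)

/-- the case `A ≤ B` -/
theorem box_le (h3 : S_QUA) (h4 : S_LAT4) (q : Matrix (Fin 4) (Fin 4) ℤ)
    (hq : q.IsSymm) (hs : ¬ IsSquare q.det) (ε : ℝ) (hε : 0 < ε) : ∃ C : ℝ, 0 ≤ C ∧ ∀ A B : ℕ,
    1 ≤ A → 1 ≤ B → A ≤ B →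
    ((PP q A B).card : ℝ) ≤ C * ((A : ℝ) * (B : ℝ) ^ 3) * ((A : ℝ) * B) ^ ε := by
  classical
  obtain ⟨CQ, hCQ, hQ⟩ := h3 q hq hs ε hε
  obtain ⟨CL, hCL, hL⟩ := h4
  refine ⟨2 * CL * CQ, by positivity, ?_⟩
  intro A B hA hB hAB
  have hA1 : (1 : ℝ) ≤ A := by exact_mod_cast hA
  have hB1 : (1 : ℝ) ≤ B := by exact_mod_cast hB
  set T := (bx 4 A).filter fun x => (Rep x ∧ q4 q x = 0) ∧ A ≤ 2 * ht x with hTd
  have hsub : PP q A B ⊆ T.biUnion fun x =>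
      ((bx 4 B).filter fun y => x ⬝ᵥ y = 0).image fun y => (x, y) := by
    rintro ⟨x, t⟩ hx
    unfold PP at hx
    rw [mem_filter, mem_product] at hx
    obtain ⟨⟨e1, e2⟩, e3, e4, e5, e6, e7, e8, e9⟩ := hx
    rw [mem_biUnion]
    refine ⟨x, ?_, ?_⟩
    · rw [hTd, mem_filter]
      exact ⟨e1, ⟨e3, e7⟩, e5⟩
    · rw [mem_image]
      refine ⟨t, ?_, rfl⟩
      rw [mem_filter]
      exact ⟨e2, e8⟩
  have hone : ∀ x ∈ T, ((((bx 4 B).filter fun y => x ⬝ᵥ y = 0).card : ℕ) : ℝ) ≤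
      2 * CL * (B : ℝ) ^ 3 / A := by
    intro x hx
    rw [hTd, mem_filter, mem_bx] at hx
    obtain ⟨e1, ⟨e2, _⟩, e3⟩ := hx
    have h5 := hL x e2 B (e1.trans hAB)
    have h6 : (A : ℝ) ≤ 2 * (ht x : ℝ) := by exact_mod_cast e3
    have h7 : (0 : ℝ) < ht x := by linarith
    refine h5.trans ?_
    rw [div_le_div_iff₀ h7 (by linarith)]
    have h8 : 0 ≤ CL * (B : ℝ) ^ 3 := by positivity
    nlinarith
  have hTc : (T.card : ℝ) ≤ CQ * (A : ℝ) ^ (2 + ε) := by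
    refine le_trans ?_ (hQ A hA)
    have : T.card ≤ ((bx 4 A).filter fun x => Rep x ∧ q4 q x = 0).card := by
      refine Finset.card_le_card ?_
      intro x hx
      rw [hTd, mem_filter] at hx
      rw [mem_filter]
      exact ⟨hx.1, hx.2.1⟩
    exact_mod_cast this
  have hexp : (A : ℝ) ^ (2 + ε) = (A : ℝ) * A * (A : ℝ) ^ ε := by
    rw [Real.rpow_add (by positivity)]
    congr 1
    rw [show (2 : ℝ) = ((2 : ℕ) : ℝ) by norm_num, Real.rpow_natCast]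
    ring
  calc ((PP q A B).card : ℝ)
      ≤ ((T.biUnion fun x => ((bx 4 B).filter fun y => x ⬝ᵥ y = 0).image
          fun y => (x, y)).card : ℝ) := by exact_mod_cast Finset.card_le_card hsub
    _ ≤ ∑ x ∈ T, ((((bx 4 B).filter fun y => x ⬝ᵥ y = 0).card : ℕ) : ℝ) := by
        have e1 := Finset.card_biUnion_le (s := T) (t := fun x =>
          ((bx 4 B).filter fun y => x ⬝ᵥ y = 0).image fun y => (x, y))
        have e2 := e1.trans (Finset.sum_le_sum fun x _ => Finset.card_image_le)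
        exact_mod_cast e2
    _ ≤ ∑ x ∈ T, 2 * CL * (B : ℝ) ^ 3 / A := Finset.sum_le_sum hone
    _ = T.card * (2 * CL * (B : ℝ) ^ 3 / A) := by
        rw [Finset.sum_const, nsmul_eq_mul]
    _ ≤ (CQ * ((A : ℝ) * A * (A : ℝ) ^ ε)) * (2 * CL * (B : ℝ) ^ 3 / A) := by
        rw [← hexp]
        exact mul_le_mul_of_nonneg_right hTc (by positivity)
    _ = 2 * CL * CQ * ((A : ℝ) * (B : ℝ) ^ 3) * (A : ℝ) ^ ε := by
        field_simp
    _ ≤ 2 * CL * CQ * ((A : ℝ) * (B : ℝ) ^ 3) * ((A : ℝ) * B) ^ ε := by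
        have e1 : (A : ℝ) ^ ε ≤ ((A : ℝ) * B) ^ ε :=
          Real.rpow_le_rpow (by positivity) (le_mul_of_one_le_right (by positivity) hB1) hε.le
        exact mul_le_mul_of_nonneg_left e1 (by positivity)

/-- part BOX -/
theorem box_ (h1 : S_PLN) (h2 : S_SUMD) (h3 : S_QUA) (h4 : S_LAT4) : S_BOX := by
  intro q hq hs ε hε
  have hd : q.det ≠ 0 := by
    intro h
    apply hs
    rw [h]
    exact ⟨0, by norm_num⟩
  obtain ⟨C, hC, hge⟩ := box_ge h1 h2 q hq hd ε hε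
  obtain ⟨C', hC', hle⟩ := box_le h3 h4 q hq hs ε hε
  refine ⟨C + C', by positivity, fun A B hA hB => ?_⟩
  have hX : 0 ≤ ((A : ℝ) * (B : ℝ) ^ 3) * ((A : ℝ) * B) ^ ε := by positivity
  rcases le_total A B with hAB | hAB
  · refine (hle A B hA hB hAB).trans ?_
    calc C' * ((A : ℝ) * (B : ℝ) ^ 3) * ((A : ℝ) * B) ^ ε
        = C' * (((A : ℝ) * (B : ℝ) ^ 3) * ((A : ℝ) * B) ^ ε) := by ring
      _ ≤ (C + C') * (((A : ℝ) * (B : ℝ) ^ 3) * ((A : ℝ) * B) ^ ε) :=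
          mul_le_mul_of_nonneg_right (by linarith) hX
      _ = _ := by ring
  · refine (hge A B hA hB hAB).trans ?_
    calc C * ((A : ℝ) * (B : ℝ) ^ 3) * ((A : ℝ) * B) ^ ε
        = C * (((A : ℝ) * (B : ℝ) ^ 3) * ((A : ℝ) * B) ^ ε) := by ring
      _ ≤ (C + C') * (((A : ℝ) * (B : ℝ) ^ 3) * ((A : ℝ) * B) ^ ε) :=
          mul_le_mul_of_nonneg_right (by linarith) hX
      _ = _ := by ring

end Pool.Agent.R38.QP
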