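import Mathlib
import Pool.Agent.R38.NC.Stm

/-!
# Project QP (helper38): the points of a quadric surface and the planes through them.
Definitions and statements of the parts.
-/

set_option autoImplicit false

namespace Pool.Agent.R38.QP

open Matrix Finset
open Pool.Agent.H548.WM (ht bx Rep)
open Pool.Agent.R38.NC (qf Prim)

/-- the value of the quadratic form in four variables with the matrix `A` -/
def q4 {R : Type*} [CommRing R] (A : Matrix (Fin 4) (Fin 4) R) (x : Fin 4 → R) : R :=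
  x ⬝ᵥ A.mulVec x

/-- Part CON2: zeros of a ternary quadratic form, with a bound for the determinants. -/
def S_CON2 : Prop := ∀ (K : ℕ) (M : Matrix (Fin 3) (Fin 3) ℤ), 1 ≤ K → M.IsSymm → M.det ≠ 0 →
  (∀ d : ℤ, (∀ i j, d ∣ M.adjugate i j) → d ∣ (K : ℤ)) →
  ∀ (V : ℝ) (S : Finset (Fin 3 → ℤ)), 0 ≤ V → (∀ x ∈ S, Prim x ∧ qf M x = 0) →
    (∀ x ∈ S, ∀ y ∈ S, y ≠ -x) →
    (∀ x ∈ S, ∀ y ∈ S, ∀ z ∈ S, ((|(Matrix.of ![x, y, z]).det| : ℤ) : ℝ) ≤ 6 * V) →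
    (S.card : ℝ) ≤ 1 + ((Nat.divisors (2 * M.det.natAbs)).card : ℝ) ^ 2 *
      (10 + 40 * K * (V / (M.det.natAbs : ℝ)) ^ ((1 : ℝ) / 3))

/-- Part UNI: a primitive vector is a row of a unimodular matrix. -/
def S_UNI : Prop := ∀ a : Fin 4 → ℤ, Prim a → ∃ U : Matrix (Fin 4) (Fin 4) ℤ,
  IsUnit U.det ∧ ∀ j, ∑ i, a i * U i j = if j = 3 then 1 else 0

/-- Part PLN: the number of rational points of bounded height on a plane section. -/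
def S_PLN : Prop := ∀ q : Matrix (Fin 4) (Fin 4) ℤ, q.IsSymm → q.det ≠ 0 →
  ∀ a : Fin 4 → ℤ, Rep a → q4 q.adjugate a ≠ 0 → ∀ (X : ℕ) (S : Finset (Fin 4 → ℤ)), 1 ≤ X →
    (∀ x ∈ S, Rep x ∧ ht x ≤ X ∧ q4 q x = 0 ∧ a ⬝ᵥ x = 0) →
    (S.card : ℝ) ≤ 1 + ((Nat.divisors (2 * (q4 q.adjugate a).natAbs)).card : ℝ) ^ 2 *
      (10 + 40 * (q.det.natAbs * X) /
        (((ht a : ℝ) * ((q4 q.adjugate a).natAbs : ℝ)) ^ ((1 : ℝ) / 3)))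

/-- Part SUM4: sums of negative powers of the values of a cubic form in four variables. -/
def S_SUM4 : Prop := ∀ P : MvPolynomial (Fin 4) ℤ, P.IsHomogeneous 3 → P ≠ 0 →
  ∃ C : ℝ, 0 ≤ C ∧ ∀ T : ℕ, 1 ≤ T →
    ∑ t ∈ (bx 4 T).filter (fun t => MvPolynomial.eval t P ≠ 0),
      1 / (((MvPolynomial.eval t P).natAbs : ℝ) ^ ((1 : ℝ) / 3)) ≤
      C * (T : ℝ) ^ 3 * (1 + Real.log T)

/-- Part SUMD: the sum over the planes. -/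
def S_SUMD : Prop := ∀ q : Matrix (Fin 4) (Fin 4) ℤ, q.IsSymm → q.det ≠ 0 →
  ∃ C : ℝ, 0 ≤ C ∧ ∀ T : ℕ, 1 ≤ T →
    ∑ a ∈ (bx 4 T).filter (fun a => q4 q.adjugate a ≠ 0),
      1 / (((ht a : ℝ) * ((q4 q.adjugate a).natAbs : ℝ)) ^ ((1 : ℝ) / 3)) ≤
      C * (T : ℝ) ^ 3 * (1 + Real.log T)

/-- Part ISO: a quadratic form in four variables with a totally isotropic plane has a square as
determinant. -/
def S_ISO : Prop := ∀ q : Matrix (Fin 4) (Fin 4) ℤ, q.IsSymm → ¬ IsSquare q.det →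
  ∀ x v : Fin 4 → ℤ, q4 q x = 0 → q4 q v = 0 → x ⬝ᵥ q.mulVec v = 0 →
    ∃ s t : ℤ, (s ≠ 0 ∨ t ≠ 0) ∧ s • x = t • v

/-- Part TAN: the rational points in a tangent plane. -/
def S_TAN : Prop := ∀ q : Matrix (Fin 4) (Fin 4) ℤ, q.IsSymm → ¬ IsSquare q.det →
  ∀ a : Fin 4 → ℤ, a ≠ 0 → q4 q.adjugate a = 0 →
    ∀ x y : Fin 4 → ℤ, Rep x → Rep y → q4 q x = 0 → q4 q y = 0 → a ⬝ᵥ x = 0 → a ⬝ᵥ y = 0 → x = y

/-- Part SIE: planes of small height through a point. -/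
def S_SIE : Prop := ∀ (X R : ℕ) (x : Fin 4 → ℤ), 1 ≤ X → ht x ≤ X → 4 * X ≤ (R + 1) ^ 3 →
  1 ≤ R → ∃ a : Fin 4 → ℤ, Rep a ∧ ht a ≤ R ∧ a ⬝ᵥ x = 0

open Classical in
/-- Part QUA: the number of rational points of bounded height on the quadric. -/
def S_QUA : Prop := ∀ q : Matrix (Fin 4) (Fin 4) ℤ, q.IsSymm → ¬ IsSquare q.det →
  ∀ ε : ℝ, 0 < ε → ∃ C : ℝ, 0 ≤ C ∧ ∀ X : ℕ, 1 ≤ X →
    (((bx 4 X).filter fun x => Rep x ∧ q4 q x = 0).card : ℝ) ≤ C * (X : ℝ) ^ (2 + ε)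

/-- Part LAT4: the planes through a given point. -/
def S_LAT4 : Prop := ∃ C : ℝ, 0 ≤ C ∧ ∀ x : Fin 4 → ℤ, Rep x → ∀ B : ℕ, ht x ≤ B →
  (((bx 4 B).filter fun y => x ⬝ᵥ y = 0).card : ℝ) ≤ C * (B : ℝ) ^ 3 / ht x

/-- the points in a dyadic box: `x` is a point of the quadric and `y` a plane through `x` that is
not tangent to the quadric -/
noncomputable def PP (q : Matrix (Fin 4) (Fin 4) ℤ) (A B : ℕ) :
    Finset ((Fin 4 → ℤ) × (Fin 4 → ℤ)) := by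
  classical
  exact ((bx 4 A) ×ˢ (bx 4 B)).filter fun z =>
    Rep z.1 ∧ Rep z.2 ∧ A ≤ 2 * ht z.1 ∧ B ≤ 2 * ht z.2 ∧ q4 q z.1 = 0 ∧ z.1 ⬝ᵥ z.2 = 0 ∧
      q4 q.adjugate z.2 ≠ 0

/-- Part BOX: the number of points in a box. -/
def S_BOX : Prop := ∀ q : Matrix (Fin 4) (Fin 4) ℤ, q.IsSymm → ¬ IsSquare q.det →
  ∀ ε : ℝ, 0 < ε → ∃ C : ℝ, 0 ≤ C ∧ ∀ A B : ℕ, 1 ≤ A → 1 ≤ B →
    ((PP q A B).card : ℝ) ≤ C * ((A : ℝ) * (B : ℝ) ^ 3) * ((A : ℝ) * B) ^ ε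

/-- Part GEO: the open set is not empty. -/
def S_GEO : Prop := ∀ q : Matrix (Fin 4) (Fin 4) ℤ, q.IsSymm → q.det ≠ 0 →
  ∃ x y : Fin 4 → ℂ, x ≠ 0 ∧ y ≠ 0 ∧ q4 (q.map (Int.castRingHom ℂ)) x = 0 ∧ x ⬝ᵥ y = 0 ∧
    q4 (q.adjugate.map (Int.castRingHom ℂ)) y ≠ 0

end Pool.Agent.R38.QP
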