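import Pool.Agent.R38.QP.Stm

/-!
# Project QP, part GEO: the open set is not empty
-/

set_option autoImplicit false

namespace Pool.Agent.R38.QP

open Matrix Finset

namespace GeoAux

theorem q4_comb (A : Matrix (Fin 4) (Fin 4) ℂ) (u v : Fin 4 → ℂ) (s t : ℂ) :
    q4 A (s • u + t • v) = s ^ 2 * q4 A u + s * t * (u ⬝ᵥ A.mulVec v + v ⬝ᵥ A.mulVec u) +
      t ^ 2 * q4 A v := by
  unfold q4
  rw [Matrix.mulVec_add, Matrix.mulVec_smul, Matrix.mulVec_smul, add_dotProduct, dotProduct_add,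
    dotProduct_add, smul_dotProduct, smul_dotProduct, smul_dotProduct, smul_dotProduct,
    dotProduct_smul, dotProduct_smul, dotProduct_smul, dotProduct_smul]
  simp only [smul_eq_mul]
  ring

theorem entry (A : Matrix (Fin 4) (Fin 4) ℂ) (i j : Fin 4) :
    (Pi.single i (1 : ℂ) : Fin 4 → ℂ) ⬝ᵥ A.mulVec (Pi.single j 1) = A i j := by
  rw [Matrix.mulVec_single_one, single_dotProduct, one_mul]
  rfl

/-- a nonzero symmetric matrix represents a nonzero number -/
theorem ex_y (A : Matrix (Fin 4) (Fin 4) ℂ) (hA : A ≠ 0) (hs : ∀ i j, A i j = A j i) :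
    ∃ y : Fin 4 → ℂ, q4 A y ≠ 0 := by
  by_contra hc
  push Not at hc
  apply hA
  ext i j
  have h1 := hc ((1 : ℂ) • Pi.single i 1 + (1 : ℂ) • Pi.single j 1)
  rw [q4_comb, hc, hc, entry, entry, hs j i] at h1
  show A i j = 0
  linear_combination (1 / 2 : ℂ) * h1

/-- a binary quadratic form has a nontrivial zero -/
theorem ex_st (a b c : ℂ) : ∃ s t : ℂ, (s ≠ 0 ∨ t ≠ 0) ∧ s ^ 2 * a + s * t * b + t ^ 2 * c = 0 := by
  by_cases ha : a = 0
  · exact ⟨1, 0, Or.inl one_ne_zero, by rw [ha]; ring⟩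
  · obtain ⟨r, hr⟩ := IsAlgClosed.exists_pow_nat_eq (b ^ 2 - 4 * a * c) (n := 2) (by norm_num)
    refine ⟨(-b + r) / (2 * a), 1, Or.inr one_ne_zero, ?_⟩
    field_simp
    linear_combination hr

/-- two more indices -/
theorem ex_jk : ∀ i : Fin 4, ∃ j k : Fin 4, j ≠ i ∧ k ≠ i ∧ j ≠ k := by decide

end GeoAux

open GeoAux

theorem geo_ : S_GEO := by
  intro q hq hdet
  have hA : q.adjugate.map (Int.castRingHom ℂ) ≠ 0 := by
    intro h
    apply hdet
    have h1 : q.adjugate = 0 := by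
      ext i j
      have h2 := congrFun (congrFun h i) j
      have h3 : ((q.adjugate i j : ℤ) : ℂ) = 0 := h2
      show q.adjugate i j = 0
      exact_mod_cast h3
    have h4 := Matrix.adjugate_mul q
    rw [h1, zero_mul] at h4
    have h5 := congrFun (congrFun h4 0) 0
    simpa using h5.symm
  have hAs : ∀ i j, q.adjugate.map (Int.castRingHom ℂ) i j =
      q.adjugate.map (Int.castRingHom ℂ) j i := by
    intro i j
    have h1 : q.adjugateᵀ = q.adjugate := by
      rw [Matrix.adjugate_transpose, hq.eq]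
    have h2 : q.adjugate j i = q.adjugate i j := congrFun (congrFun h1 i) j
    rw [Matrix.map_apply, Matrix.map_apply, h2]
  obtain ⟨y, hy⟩ := ex_y _ hA hAs
  have hy0 : y ≠ 0 := by
    rintro rfl
    apply hy
    simp [q4]
  obtain ⟨i, hi⟩ : ∃ i, y i ≠ 0 := by
    by_contra hc
    push Not at hc
    exact hy0 (funext hc)
  obtain ⟨j, k, hji, hki, hjk⟩ := ex_jk i
  set u : Fin 4 → ℂ := y i • Pi.single j 1 - y j • Pi.single i 1 with hu
  set v : Fin 4 → ℂ := y i • Pi.single k 1 - y k • Pi.single i 1 with hv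
  obtain ⟨s, t, hst, h0⟩ := ex_st (q4 (q.map (Int.castRingHom ℂ)) u)
    (u ⬝ᵥ (q.map (Int.castRingHom ℂ)).mulVec v + v ⬝ᵥ (q.map (Int.castRingHom ℂ)).mulVec u)
    (q4 (q.map (Int.castRingHom ℂ)) v)
  refine ⟨s • u + t • v, y, ?_, hy0, ?_, ?_, hy⟩
  · intro h
    have h1 := congrFun h j
    have h2 := congrFun h k
    simp [hu, hv, hji, hjk, hki, hjk.symm, hi] at h1 h2
    rcases hst with h3 | h3
    · exact h3 h1
    · exact h3 h2
  · rw [q4_comb]
    exact h0
  · rw [add_dotProduct, smul_dotProduct, smul_dotProduct, hu, hv, sub_dotProduct, sub_dotProduct,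
      smul_dotProduct, smul_dotProduct, smul_dotProduct, smul_dotProduct, single_dotProduct,
      single_dotProduct, single_dotProduct]
    simp only [smul_eq_mul]
    ring

end Pool.Agent.R38.QP
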