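import Mathlib
import Pool.Agent.R38.QP.Stm

set_option autoImplicit false

/-! Part ISO: an isotropic plane gives a square determinant. -/

namespace Pool.Agent.R38.QP

open Matrix Finset

namespace IsoAux

theorem det4 (M : Matrix (Fin 4) (Fin 4) ℤ) : M.det =
    (M 0 0 * M 1 1 - M 0 1 * M 1 0) * (M 2 2 * M 3 3 - M 2 3 * M 3 2) -
    (M 0 0 * M 1 2 - M 0 2 * M 1 0) * (M 2 1 * M 3 3 - M 2 3 * M 3 1) +
    (M 0 0 * M 1 3 - M 0 3 * M 1 0) * (M 2 1 * M 3 2 - M 2 2 * M 3 1) +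
    (M 0 1 * M 1 2 - M 0 2 * M 1 1) * (M 2 0 * M 3 3 - M 2 3 * M 3 0) -
    (M 0 1 * M 1 3 - M 0 3 * M 1 1) * (M 2 0 * M 3 2 - M 2 2 * M 3 0) +
    (M 0 2 * M 1 3 - M 0 3 * M 1 2) * (M 2 0 * M 3 1 - M 2 1 * M 3 0) := by
  rw [Matrix.det_succ_row_zero]
  simp [Fin.sum_univ_succ, Matrix.det_fin_three, Matrix.submatrix_apply, Fin.succAbove]
  ring

theorem dep (x v : Fin 4 → ℤ) (h : ∀ y z : Fin 4 → ℤ, (Matrix.of ![x, v, y, z]).det = 0)
    (k l : Fin 4) : x k * v l = x l * v k := by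
  have h01 := h ![0, 0, 1, 0] ![0, 0, 0, 1]
  have h02 := h ![0, 1, 0, 0] ![0, 0, 0, 1]
  have h03 := h ![0, 1, 0, 0] ![0, 0, 1, 0]
  have h12 := h ![1, 0, 0, 0] ![0, 0, 0, 1]
  have h13 := h ![1, 0, 0, 0] ![0, 0, 1, 0]
  have h23 := h ![1, 0, 0, 0] ![0, 1, 0, 0]
  rw [det4] at h01 h02 h03 h12 h13 h23
  simp at h01 h02 h03 h12 h13 h23
  fin_cases k <;> fin_cases l <;> simp <;> linarith

end IsoAux

open IsoAux in
theorem iso_ : S_ISO := by
  intro q hq hsq x v hx hv hxv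
  have hdet : ∀ y z : Fin 4 → ℤ, (Matrix.of ![x, v, y, z]).det = 0 := by
    intro y z
    by_contra hd
    apply hsq
    obtain ⟨P, hP⟩ : ∃ P, P = Matrix.of ![x, v, y, z] := ⟨_, rfl⟩
    rw [← hP] at hd
    obtain ⟨N, hN⟩ : ∃ N, N = P * q * Pᵀ := ⟨_, rfl⟩
    have hNd : N.det = P.det ^ 2 * q.det := by
      rw [hN, Matrix.det_mul, Matrix.det_mul, Matrix.det_transpose]
      ring
    have hNs : Nᵀ = N := by
      rw [hN, Matrix.transpose_mul, Matrix.transpose_mul, Matrix.transpose_transpose, hq.eq,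
        Matrix.mul_assoc]
    have hNsym : ∀ i j, N i j = N j i := fun i j => by
      have := congrFun (congrFun hNs j) i
      rw [Matrix.transpose_apply] at this
      exact this
    have hval : ∀ i j, N i j = P i ⬝ᵥ q.mulVec (P j) := by
      intro i j
      rw [hN, Matrix.mul_assoc, Matrix.mul_apply]
      refine Finset.sum_congr rfl fun k _ => ?_
      rw [Matrix.mul_apply]
      rfl
    have h00 : N 0 0 = 0 := by
      rw [hval, hP]; exact hx
    have h01 : N 0 1 = 0 := by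
      rw [hval, hP]; exact hxv
    have h11 : N 1 1 = 0 := by
      rw [hval, hP]; exact hv
    have hsq2 : P.det ^ 2 * q.det = (N 0 2 * N 1 3 - N 0 3 * N 1 2) ^ 2 := by
      rw [← hNd, det4, h00, h01, h11, hNsym 1 0, h01, hNsym 2 0, hNsym 3 1, hNsym 2 1,
        hNsym 3 0]
      ring
    have hdvd : P.det ∣ N 0 2 * N 1 3 - N 0 3 * N 1 2 := by
      rw [← Int.pow_dvd_pow_iff two_ne_zero]
      exact ⟨q.det, hsq2.symm⟩
    obtain ⟨c, hc⟩ := hdvd
    refine ⟨c, ?_⟩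
    rw [hc] at hsq2
    have h2 : P.det ^ 2 * q.det = P.det ^ 2 * (c * c) := by
      rw [hsq2]; ring
    exact mul_left_cancel₀ (pow_ne_zero 2 hd) h2
  have hdep := dep x v hdet
  by_cases h0 : ∃ k, x k ≠ 0
  · obtain ⟨k, hk⟩ := h0
    refine ⟨v k, x k, Or.inr hk, ?_⟩
    funext l
    rw [Pi.smul_apply, Pi.smul_apply, smul_eq_mul, smul_eq_mul, hdep k l, mul_comm]
  · push Not at h0
    refine ⟨1, 0, Or.inl one_ne_zero, ?_⟩
    funext l
    rw [Pi.smul_apply, Pi.smul_apply, h0 l, smul_zero, zero_smul]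

end Pool.Agent.R38.QP
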