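import Pool.Agent.R38.QP.Stm
import Pool.Agent.H548.WM.Hyp

/-! Part LAT4: the planes through a given point (from `Pool.Agent.H548.WM.hyp`). -/

set_option autoImplicit false

namespace Pool.Agent.R38.QP

open Matrix Finset
open Pool.Agent.H548.WM (ht bx Rep)

theorem lat4_ : S_LAT4 := by
  refine ⟨625, by norm_num, ?_⟩
  intro x hx B hB
  classical
  obtain ⟨hgcd, i, hi, -⟩ := hx
  obtain ⟨k0, hk0⟩ := Pool.Agent.H548.WM.exists_ht (m := 4) (by norm_num) x
  have hht : 1 ≤ ht x := by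
    have h1 := Pool.Agent.H548.WM.le_ht x i
    omega
  obtain ⟨u, hu⟩ : ∃ u : Fin 4 → ℤ, ∑ k, u k * x k = 1 := by
    obtain ⟨u, hu⟩ := Finset.gcd_eq_sum_mul (Finset.univ : Finset (Fin 4)) x
    refine ⟨u, ?_⟩
    rw [← hgcd, hu]
    exact Finset.sum_congr rfl fun k _ => mul_comm _ _
  have h := Pool.Agent.H548.WM.hyp (m := 4) x u 1 (ht x) k0 B 1 le_rfl hht (by simpa using hu)
    (by rw [one_mul]; zify; exact hk0) (by simpa using hB) (hht.trans hB)
  have hB0 : (0 : ℝ) < B := by exact_mod_cast lt_of_lt_of_le hht hB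
  have hh0 : (0 : ℝ) < (ht x : ℝ) := by exact_mod_cast hht
  have h2 : (((bx 4 B).filter fun y => x ⬝ᵥ y = 0).card : ℝ) * ((B : ℝ) * ht x) ≤
      ((1 + 4) * B) ^ 4 := by
    have h3 : (((bx 4 B).filter fun r => ∑ k, x k * r k = 0).card : ℝ) * ((B : ℝ) * ht x) ≤
      ((1 + 4) * B) ^ 4 := by exact_mod_cast h
    have h4 : ((bx 4 B).filter fun y => x ⬝ᵥ y = 0) =
        ((bx 4 B).filter fun r => ∑ k, x k * r k = 0) := by
      ext y
      simp only [Finset.mem_filter]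
      exact Iff.rfl
    rw [h4]
    exact h3
  rw [le_div_iff₀ hh0]
  have h3 : (((bx 4 B).filter fun y => x ⬝ᵥ y = 0).card : ℝ) * (ht x) * B ≤
      625 * (B : ℝ) ^ 3 * B := by nlinarith
  exact le_of_mul_le_mul_right h3 hB0

end Pool.Agent.R38.QP
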