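import Pool.Agent.R38.QP.Stm

set_option autoImplicit false

/-!
# Part PLN (helper507): rational points on the plane sections of a quadric surface
-/

namespace Pool.Agent.R38.QP

open Matrix Finset
open Pool.Agent.H548.WM (ht Rep)
open Pool.Agent.R38.NC (qf Prim)

namespace PLN507

theorem det_border (N : Matrix (Fin 4) (Fin 4) ℤ) (d : ℤ)
    (h : ∀ i j, d ∣ (N.submatrix Fin.castSucc Fin.castSucc).adjugate i j) : d ∣ N.det := by
  have key : N.det = N 3 3 * ∑ k, N 0 (Fin.castSucc k) *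
      (N.submatrix Fin.castSucc Fin.castSucc).adjugate k 0 -
      ∑ j : Fin 3, ∑ k : Fin 3, N 3 j.castSucc *
        (N.submatrix Fin.castSucc Fin.castSucc).adjugate j k * N k.castSucc 3 := by
    rw [adjugate_fin_three, det_succ_row_zero]
    simp only [Fin.sum_univ_succ, det_fin_three, submatrix_apply, Matrix.of_apply,
      Matrix.cons_val', Matrix.cons_val_zero]
    simp [Fin.succAbove, Fin.lt_def, Fin.castSucc, Fin.succ]
    ring
  rw [key]
  exact dvd_sub (Dvd.dvd.mul_left (dvd_sum fun k _ => (h k 0).mul_left _) _)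
    (dvd_sum fun j _ => dvd_sum fun k _ => ((h j k).mul_left _).mul_right _)

theorem vecMul_eq {a : Fin 4 → ℤ} {U : Matrix (Fin 4) (Fin 4) ℤ}
    (hU : ∀ j, ∑ i, a i * U i j = if j = 3 then 1 else 0) : a ᵥ* U = Pi.single 3 1 := by
  ext j
  rw [Pi.single_apply, ← hU j]
  rfl

theorem last_coord {a : Fin 4 → ℤ} {U : Matrix (Fin 4) (Fin 4) ℤ}
    (hU : ∀ j, ∑ i, a i * U i j = if j = 3 then 1 else 0) (y : Fin 4 → ℤ) :
    a ⬝ᵥ (U *ᵥ y) = y 3 := by
  rw [dotProduct_mulVec, vecMul_eq hU, single_dotProduct, one_mul]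

theorem adj_row {a : Fin 4 → ℤ} {U : Matrix (Fin 4) (Fin 4) ℤ}
    (hU : ∀ j, ∑ i, a i * U i j = if j = 3 then 1 else 0) : U.adjugate 3 = U.det • a := by
  have h2 : (a ᵥ* U) ᵥ* U.adjugate = U.det • a := by
    rw [vecMul_vecMul, mul_adjugate, vecMul_smul, vecMul_one]
  rw [vecMul_eq hU, single_one_vecMul] at h2
  exact h2

theorem det_sub {a : Fin 4 → ℤ} {U q : Matrix (Fin 4) (Fin 4) ℤ} (hu : U.det * U.det = 1)
    (hU : ∀ j, ∑ i, a i * U i j = if j = 3 then 1 else 0) :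
    ((Uᵀ * q * U).submatrix Fin.castSucc Fin.castSucc).det = q4 q.adjugate a := by
  have h1 : (Uᵀ * q * U).adjugate 3 3 =
      ((Uᵀ * q * U).submatrix Fin.castSucc Fin.castSucc).det := by
    have h := adjugate_fin_succ_eq_det_submatrix (Uᵀ * q * U) (Fin.last 3) (Fin.last 3)
    rw [Fin.succAbove_last] at h
    have e : (3 : Fin 4) = Fin.last 3 := rfl
    rw [e, h]
    norm_num
  rw [← h1, adjugate_mul_distrib, adjugate_mul_distrib, ← adjugate_transpose]
  have h2 : (U.adjugate * (q.adjugate * U.adjugateᵀ)) 3 3 =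
      U.adjugate 3 ⬝ᵥ (q.adjugate *ᵥ U.adjugate 3) := rfl
  rw [h2, adj_row hU, mulVec_smul, smul_dotProduct, dotProduct_smul, smul_smul, hu, one_smul]
  rfl

theorem qf_sub (N : Matrix (Fin 4) (Fin 4) ℤ) (y : Fin 4 → ℤ) (hy : y 3 = 0) :
    qf (N.submatrix Fin.castSucc Fin.castSucc) (fun j => y j.castSucc) = q4 N y := by
  have hl : y (Fin.last 3) = 0 := hy
  simp only [qf, q4, dotProduct, mulVec, submatrix_apply]
  rw [Fin.sum_univ_castSucc (n := 3)]
  rw [hl, zero_mul, add_zero]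
  refine Finset.sum_congr rfl fun j _ => ?_
  rw [Fin.sum_univ_castSucc (n := 3), hl, mul_zero, add_zero]

theorem q4_conj (q U : Matrix (Fin 4) (Fin 4) ℤ) (y : Fin 4 → ℤ) :
    q4 (Uᵀ * q * U) y = q4 q (U *ᵥ y) := by
  unfold q4
  rw [← mulVec_mulVec, ← mulVec_mulVec, dotProduct_mulVec y, vecMul_transpose]

theorem bound_Z (x y z : Fin 4 → ℤ) (X : ℕ) (hx : ∀ i, |x i| ≤ X) (hy : ∀ i, |y i| ≤ X)
    (hz : ∀ i, |z i| ≤ X) (i : Fin 4) :
    |(Matrix.of ![x, y, z, Pi.single i 1]).det| ≤ 6 * (X : ℤ) ^ 3 := by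
  rw [det_succ_row _ (3 : Fin 4)]
  have h3 : ∀ j, (Matrix.of ![x, y, z, Pi.single i 1]) 3 j = if j = i then (1 : ℤ) else 0 := by
    intro j
    simp [Pi.single_apply]
  rw [Finset.sum_eq_single i]
  · rw [h3, if_pos rfl, mul_one, abs_mul, abs_pow, abs_neg, abs_one, one_pow, one_mul]
    have h := Matrix.det_le (n := Fin 3)
      (A := (Matrix.of ![x, y, z, Pi.single i 1]).submatrix (Fin.succAbove 3) (Fin.succAbove i))
      (abv := AbsoluteValue.abs) (x := (X : ℤ)) (by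
        intro r c
        rw [submatrix_apply]
        fin_cases r
        · exact hx _
        · exact hy _
        · exact hz _)
    rw [Fintype.card_fin] at h
    have e : Nat.factorial 3 = 6 := rfl
    rw [e] at h
    simpa using h
  · intro j _ hj
    rw [h3, if_neg hj]
    simp
  · intro h
    exact absurd (Finset.mem_univ i) h

theorem det_hat (x y z e : Fin 4 → ℤ) (hx : x 3 = 0) (hy : y 3 = 0) (hz : z 3 = 0) :
    (Matrix.of ![x, y, z, e]).det = e 3 * (Matrix.of ![fun j : Fin 3 => x j.castSucc,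
      fun j : Fin 3 => y j.castSucc, fun j : Fin 3 => z j.castSucc]).det := by
  rw [det_succ_column _ (Fin.last 3), Fin.sum_univ_castSucc]
  rw [Finset.sum_eq_zero]
  · rw [Fin.succAbove_last]
    have e1 : (Matrix.of ![x, y, z, e]) (Fin.last 3) (Fin.last 3) = e 3 := rfl
    rw [e1, zero_add]
    have e2 : ((Matrix.of ![x, y, z, e]).submatrix Fin.castSucc Fin.castSucc) =
        Matrix.of ![fun j : Fin 3 => x j.castSucc,
      fun j : Fin 3 => y j.castSucc, fun j : Fin 3 => z j.castSucc] := by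
      ext r c
      fin_cases r <;> rfl
    rw [e2]
    norm_num
  · intro r _
    have e1 : (Matrix.of ![x, y, z, e]) (Fin.castSucc r) (Fin.last 3) = 0 := by
      fin_cases r
      · exact hx
      · exact hy
      · exact hz
    rw [e1]
    ring

theorem det_bound {a : Fin 4 → ℤ} {U : Matrix (Fin 4) (Fin 4) ℤ} (hu : IsUnit U.det)
    (hU : ∀ j, ∑ i, a i * U i j = if j = 3 then 1 else 0) (x y z : Fin 4 → ℤ)
    (hx : x 3 = 0) (hy : y 3 = 0) (hz : z 3 = 0) (X : ℕ) (bx : ∀ i, |(U *ᵥ x) i| ≤ X)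
    (bY : ∀ i, |(U *ᵥ y) i| ≤ X) (bz : ∀ i, |(U *ᵥ z) i| ≤ X) (i : Fin 4) :
    |a i| * |(Matrix.of ![fun j : Fin 3 => x j.castSucc,
      fun j : Fin 3 => y j.castSucc, fun j : Fin 3 => z j.castSucc]).det| ≤ 6 * (X : ℤ) ^ 3 := by
  set e : Fin 4 → ℤ := U⁻¹ *ᵥ (Pi.single i 1) with he
  have hUe : U *ᵥ e = Pi.single i 1 := by
    rw [he, mulVec_mulVec, mul_nonsing_inv U hu, one_mulVec]
  have he3 : e 3 = a i := by
    rw [← last_coord hU e, hUe, dotProduct_single, mul_one]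
  have hZ : Matrix.of ![U *ᵥ x, U *ᵥ y, U *ᵥ z, Pi.single i 1] =
      Matrix.of ![x, y, z, e] * Uᵀ := by
    rw [← hUe]
    ext r c
    fin_cases r <;> simp [Matrix.mul_apply, mulVec, dotProduct, mul_comm]
  have hd := congrArg Matrix.det hZ
  rw [det_mul, det_transpose, det_hat x y z e hx hy hz, he3] at hd
  have hb := bound_Z (U *ᵥ x) (U *ᵥ y) (U *ᵥ z) X bx bY bz i
  rw [hd, abs_mul, abs_mul] at hb
  have h1 : |U.det| = 1 := Int.isUnit_iff_abs_eq.1 hu
  rw [h1, mul_one] at hb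
  exact hb

theorem rep_neg {n : ℕ} {x : Fin n → ℤ} (h : Rep x) : ¬ Rep (-x) := by
  obtain ⟨-, i, hi, h1⟩ := h
  rintro ⟨-, j, hj, h2⟩
  rcases lt_trichotomy i j with h | h | h
  · have := h2 i h
    simp only [Pi.neg_apply] at this
    omega
  · subst h
    simp only [Pi.neg_apply] at hj
    omega
  · have := h1 j h
    simp only [Pi.neg_apply] at hj
    omega

theorem le_ht5 {m : ℕ} (v : Fin m → ℤ) (i : Fin m) : |v i| ≤ (ht v : ℤ) := by
  have h : (v i).natAbs ≤ ht v := Finset.le_sup (f := fun i => (v i).natAbs) (mem_univ i)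
  rw [Int.abs_eq_natAbs]
  exact_mod_cast h

theorem exists_ht {a : Fin 4 → ℤ} : ∃ i, |a i| = (ht a : ℤ) := by
  obtain ⟨i, -, hi⟩ := Finset.exists_mem_eq_sup (Finset.univ : Finset (Fin 4))
    ⟨0, Finset.mem_univ _⟩ (fun i => (a i).natAbs)
  refine ⟨i, ?_⟩
  rw [Int.abs_eq_natAbs]
  exact_mod_cast hi.symm

theorem ht_pos {n : ℕ} {a : Fin n → ℤ} (h : Rep a) : 1 ≤ ht a := by
  obtain ⟨-, i, hi, -⟩ := h
  have := le_ht5 a i
  rw [abs_of_pos hi] at this
  omega

theorem prim_of_rep {n : ℕ} {a : Fin n → ℤ} (h : Rep a) : Prim a := by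
  intro d hd
  have h1 : d ∣ Finset.univ.gcd a := Finset.dvd_gcd fun i _ => hd i
  rw [h.1] at h1
  exact isUnit_of_dvd_one h1

end PLN507

open PLN507 in
theorem pln_ (h1 : S_CON2) (h2 : S_UNI) : S_PLN := by
  intro q hq hdet a ha hQ X S hX hS
  obtain ⟨U, hu, hU⟩ := h2 a (prim_of_rep ha)
  have huu : U.det * U.det = 1 := by
    rcases Int.isUnit_iff.1 hu with h | h <;> rw [h] <;> rfl
  set M : Matrix (Fin 3) (Fin 3) ℤ := (Uᵀ * q * U).submatrix Fin.castSucc Fin.castSucc with hM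
  have hMdet : M.det = q4 q.adjugate a := det_sub huu hU
  have hMs : M.IsSymm := by
    have h : (Uᵀ * q * U)ᵀ = Uᵀ * q * U := by
      rw [transpose_mul, transpose_mul, transpose_transpose, hq.eq, Matrix.mul_assoc]
    unfold IsSymm
    rw [hM, transpose_submatrix, h]
  have hND : (Uᵀ * q * U).det = q.det := by
    rw [det_mul, det_mul, det_transpose]
    linear_combination q.det * huu
  have hK : ∀ d : ℤ, (∀ i j, d ∣ M.adjugate i j) → d ∣ ((q.det.natAbs : ℕ) : ℤ) := by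
    intro d hd
    rw [Int.dvd_natAbs, ← hND]
    exact det_border _ d hd
  -- coordinates
  have inv1 : ∀ x : Fin 4 → ℤ, U *ᵥ (U⁻¹ *ᵥ x) = x := by
    intro x
    rw [mulVec_mulVec, mul_nonsing_inv U hu, one_mulVec]
  have last0 : ∀ x ∈ S, (U⁻¹ *ᵥ x) 3 = 0 := by
    intro x hx
    rw [← last_coord hU (U⁻¹ *ᵥ x), inv1]
    exact (hS x hx).2.2.2
  let φ : (Fin 4 → ℤ) → (Fin 3 → ℤ) := fun x j => (U⁻¹ *ᵥ x) j.castSucc
  have ext4 : ∀ y z : Fin 4 → ℤ, (∀ j : Fin 3, y j.castSucc = z j.castSucc) → y 3 = z 3 →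
      y = z := by
    intro y z h h3
    ext j
    refine Fin.lastCases ?_ ?_ j
    · exact h3
    · intro j
      exact h j
  have φneg : ∀ x ∈ S, ∀ y ∈ S, φ y = - φ x → y = -x := by
    intro x hx y hy h
    have h5 : U⁻¹ *ᵥ y = -(U⁻¹ *ᵥ x) := by
      apply ext4
      · intro j
        exact congrFun h j
      · rw [last0 y hy, Pi.neg_apply, last0 x hx, neg_zero]
    rw [← inv1 y, h5, mulVec_neg, inv1]
  have φinj : Set.InjOn φ S := by
    intro x hx y hy h
    have h5 : U⁻¹ *ᵥ x = U⁻¹ *ᵥ y := by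
      apply ext4
      · intro j
        exact congrFun h j
      · rw [last0 y hy, last0 x hx]
    rw [← inv1 x, h5, inv1]
  have hht : 0 < (ht a : ℝ) := by
    have := ht_pos ha
    exact_mod_cast this
  have hb : ∀ x ∈ S, ∀ i, |x i| ≤ (X : ℤ) := by
    intro x hx i
    exact (le_ht5 x i).trans (by exact_mod_cast (hS x hx).2.1)
  have hmain := h1 q.det.natAbs M (Int.natAbs_pos.2 hdet) hMs (by rw [hMdet]; exact hQ) hK
    ((X : ℝ) ^ 3 / ht a) (S.image φ) (by positivity) (by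
      intro x' hx'
      obtain ⟨x, hx, rfl⟩ := Finset.mem_image.1 hx'
      constructor
      · intro d hd
        apply prim_of_rep (hS x hx).1 d
        intro i
        rw [← inv1 x]
        change d ∣ ∑ j, U i j * (U⁻¹ *ᵥ x) j
        have hall : ∀ j, d ∣ (U⁻¹ *ᵥ x) j := by
          intro j
          refine Fin.lastCases ?_ ?_ j
          · have := last0 x hx
            change d ∣ (U⁻¹ *ᵥ x) 3
            rw [this]
            exact dvd_zero d
          · intro j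
            exact hd j
        exact Finset.dvd_sum fun j _ => Dvd.dvd.mul_left (hall j) _
      · have h := qf_sub (Uᵀ * q * U) (U⁻¹ *ᵥ x) (last0 x hx)
        rw [q4_conj, inv1, (hS x hx).2.2.1] at h
        exact h) (by
      intro x' hx' y' hy' h
      obtain ⟨x, hx, rfl⟩ := Finset.mem_image.1 hx'
      obtain ⟨y, hy, rfl⟩ := Finset.mem_image.1 hy'
      have h6 := φneg x hx y hy h
      apply rep_neg (hS x hx).1
      rw [← h6]
      exact (hS y hy).1) (by
      intro x' hx' y' hy' z' hz'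
      obtain ⟨x, hx, rfl⟩ := Finset.mem_image.1 hx'
      obtain ⟨y, hy, rfl⟩ := Finset.mem_image.1 hy'
      obtain ⟨z, hz, rfl⟩ := Finset.mem_image.1 hz'
      obtain ⟨i, hi⟩ := exists_ht (a := a)
      have h7 := det_bound hu hU (U⁻¹ *ᵥ x) (U⁻¹ *ᵥ y) (U⁻¹ *ᵥ z) (last0 x hx) (last0 y hy)
        (last0 z hz) X (by rw [inv1]; exact hb x hx) (by rw [inv1]; exact hb y hy)
        (by rw [inv1]; exact hb z hz) i
      rw [hi] at h7
      have h8 : (ht a : ℝ) * ((|(Matrix.of ![φ x, φ y, φ z]).det| : ℤ) : ℝ) ≤ 6 * (X : ℝ) ^ 3 := by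
        exact_mod_cast h7
      rw [← mul_div_assoc, le_div_iff₀ hht]
      linarith)
  rw [Finset.card_image_of_injOn φinj, hMdet] at hmain
  refine hmain.trans (le_of_eq ?_)
  congr 2
  congr 1
  have hQ' : 0 < ((q4 q.adjugate a).natAbs : ℝ) := by
    have := Int.natAbs_pos.2 hQ
    exact_mod_cast this
  have hX0 : (0 : ℝ) ≤ X := Nat.cast_nonneg X
  rw [div_div, Real.div_rpow (by positivity) (by positivity)]
  have h9 : ((X : ℝ) ^ 3) ^ ((1 : ℝ) / 3) = X := by
    rw [← Real.rpow_natCast, ← Real.rpow_mul hX0]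
    norm_num
  rw [h9]
  ring

end Pool.Agent.R38.QP
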