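import Pool.Agent.R38.QP.Stm

/-!
# Project QP, part QUA: points on the quadric surface (by helper372)
-/

set_option autoImplicit false

namespace Pool.Agent.R38.QP

open Matrix Finset
open Pool.Agent.H548.WM (ht bx Rep mem_bx card_bx_le le_ht')

namespace Qua

theorem q4_le (A : Matrix (Fin 4) (Fin 4) ℤ) {a : Fin 4 → ℤ} {R : ℕ} (h : ht a ≤ R) :
    (q4 A a).natAbs ≤ (∑ i, ∑ j, (A i j).natAbs) * R ^ 2 := by
  have h1 : ∀ i, |a i| ≤ (R : ℤ) := fun i => (le_ht' a i).trans (by exact_mod_cast h)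
  have h2 : |q4 A a| ≤ (∑ i, ∑ j, |A i j|) * (R : ℤ) ^ 2 := by
    unfold q4
    simp only [dotProduct, mulVec]
    calc |∑ i, a i * ∑ j, A i j * a j| ≤ ∑ i, |a i * ∑ j, A i j * a j| :=
          Finset.abs_sum_le_sum_abs _ _
      _ ≤ ∑ i, (R : ℤ) * ((∑ j, |A i j|) * R) := by
          refine Finset.sum_le_sum fun i _ => ?_
          rw [abs_mul]
          have h3 : |∑ j, A i j * a j| ≤ (∑ j, |A i j|) * R := by
            calc |∑ j, A i j * a j| ≤ ∑ j, |A i j * a j| := Finset.abs_sum_le_sum_abs _ _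
              _ ≤ ∑ j, |A i j| * R := Finset.sum_le_sum fun j _ => by
                  rw [abs_mul]; exact mul_le_mul_of_nonneg_left (h1 j) (abs_nonneg _)
              _ = _ := by rw [Finset.sum_mul]
          exact mul_le_mul (h1 i) h3 (abs_nonneg _) (by positivity)
      _ = _ := by
          rw [← Finset.mul_sum, ← Finset.sum_mul]
          ring
  have h4 : ((q4 A a).natAbs : ℤ) ≤ ((∑ i, ∑ j, (A i j).natAbs : ℕ) : ℤ) * (R : ℤ) ^ 2 := by
    have h5 : ((∑ i, ∑ j, (A i j).natAbs : ℕ) : ℤ) = ∑ i, ∑ j, |A i j| := by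
      push_cast
      rfl
    rw [Int.natCast_natAbs, h5]
    exact h2
  exact_mod_cast h4

end Qua

open Qua in
open Classical in
theorem qua_ (h1 : S_PLN) (h2 : S_SUMD) (h3 : S_TAN) (h4 : S_SIE) : S_QUA := by
  intro q hs hsq ε hε
  have hdet : q.det ≠ 0 := by
    intro h
    apply hsq
    rw [h]
    exact ⟨0, by simp⟩
  obtain ⟨C3, hC3, hsum⟩ := h2 q hs hdet
  obtain ⟨C1, hC1, hdiv⟩ := Pool.Agent.Helper112.divisor_bound (ε / 16) (by positivity)
  set K : ℕ := 1 + ∑ i, ∑ j, (q.adjugate i j).natAbs with hK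
  have hK1 : (1 : ℝ) ≤ K := by
    have : 1 ≤ K := Nat.le_add_right _ _
    exact_mod_cast this
  set D : ℝ := max C1 1 * (32 * (K : ℝ)) ^ (ε / 16) with hD
  have hD1 : 1 ≤ D := by
    have e1 : (1 : ℝ) ≤ (32 * (K : ℝ)) ^ (ε / 16) :=
      Real.one_le_rpow (by linarith) (by positivity)
    have e2 : (1 : ℝ) ≤ max C1 1 := le_max_right _ _
    rw [hD]
    nlinarith
  set d0 : ℝ := (q.det.natAbs : ℝ) with hd0
  have hd00 : 0 ≤ d0 := Nat.cast_nonneg _
  refine ⟨D ^ 2 * (14256 + 160 * d0 * C3 * (4 + 4 / ε)), by positivity, ?_⟩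
  intro X hX
  have hX1 : (1 : ℝ) ≤ X := by exact_mod_cast hX
  -- the size of the planes
  set R : ℕ := ⌊((4 * X : ℕ) : ℝ) ^ ((1 : ℝ) / 3)⌋₊ with hR
  have hXp : (1 : ℝ) ≤ ((4 * X : ℕ) : ℝ) := by
    have : 1 ≤ 4 * X := by omega
    exact_mod_cast this
  have hcube : (((4 * X : ℕ) : ℝ) ^ ((1 : ℝ) / 3)) ^ 3 = ((4 * X : ℕ) : ℝ) := by
    rw [← Real.rpow_natCast, ← Real.rpow_mul (by positivity)]
    norm_num
  have hR1 : 1 ≤ R := by
    rw [hR]
    refine Nat.le_floor ?_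
    rw [Nat.cast_one]
    exact Real.one_le_rpow hXp (by positivity)
  have hR3 : (R : ℝ) ^ 3 ≤ 4 * X := by
    have e1 : (R : ℝ) ≤ ((4 * X : ℕ) : ℝ) ^ ((1 : ℝ) / 3) := Nat.floor_le (by positivity)
    have e2 := pow_le_pow_left₀ (Nat.cast_nonneg R) e1 3
    rw [hcube] at e2
    push_cast at e2
    exact e2
  have hRX : 4 * X ≤ (R + 1) ^ 3 := by
    have e1 : ((4 * X : ℕ) : ℝ) ^ ((1 : ℝ) / 3) < (R : ℝ) + 1 := Nat.lt_floor_add_one _
    have e2 := pow_le_pow_left₀ (by positivity) e1.le 3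
    rw [hcube] at e2
    exact_mod_cast e2
  have hR1' : (1 : ℝ) ≤ R := by exact_mod_cast hR1
  have hRle : (R : ℝ) ≤ 4 * X := by
    refine le_trans ?_ hR3
    exact le_self_pow₀ hR1' (by norm_num)
  have hR4 : (R : ℝ) ^ 4 ≤ 16 * (X : ℝ) ^ 2 := by
    have e1 : (R : ℝ) ^ 4 = (R : ℝ) ^ 3 * R := by ring
    rw [e1]
    calc (R : ℝ) ^ 3 * R ≤ (4 * X) * (4 * X) := by gcongr
      _ = 16 * (X : ℝ) ^ 2 := by ring
  -- the divisor function
  set τ : ℝ := D * (X : ℝ) ^ (ε / 8) with hτ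
  have hX8 : (1 : ℝ) ≤ (X : ℝ) ^ (ε / 8) := Real.one_le_rpow hX1 (by positivity)
  have hX4 : (1 : ℝ) ≤ (X : ℝ) ^ (ε / 4) := Real.one_le_rpow hX1 (by positivity)
  have hτ1 : 1 ≤ τ := by
    rw [hτ]
    nlinarith
  have hτd : ∀ a : Fin 4 → ℤ, ht a ≤ R → q4 q.adjugate a ≠ 0 →
      ((Nat.divisors (2 * (q4 q.adjugate a).natAbs)).card : ℝ) ≤ τ := by
    intro a haR ha0
    have hpos : 1 ≤ (q4 q.adjugate a).natAbs :=
      Nat.one_le_iff_ne_zero.2 (Int.natAbs_ne_zero.2 ha0)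
    refine (hdiv _ (by omega)).trans ?_
    have e4 := q4_le q.adjugate haR
    have e5 : ((2 * (q4 q.adjugate a).natAbs : ℕ) : ℝ) ≤ 32 * (K : ℝ) * (X : ℝ) ^ 2 := by
      have e6 : ((q4 q.adjugate a).natAbs : ℝ) ≤ (K : ℝ) * (R : ℝ) ^ 2 := by
        have e7 : (q4 q.adjugate a).natAbs ≤ K * R ^ 2 :=
          e4.trans (Nat.mul_le_mul_right _ (Nat.le_add_left _ _))
        exact_mod_cast e7
      have e8 : (R : ℝ) ^ 2 ≤ 16 * (X : ℝ) ^ 2 := by
        refine le_trans ?_ hR4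
        exact pow_le_pow_right₀ hR1' (by norm_num)
      push_cast
      nlinarith
    calc C1 * ((2 * (q4 q.adjugate a).natAbs : ℕ) : ℝ) ^ (ε / 16)
        ≤ max C1 1 * (32 * (K : ℝ) * (X : ℝ) ^ 2) ^ (ε / 16) := by
          have e7 : ((2 * (q4 q.adjugate a).natAbs : ℕ) : ℝ) ^ (ε / 16) ≤
              (32 * (K : ℝ) * (X : ℝ) ^ 2) ^ (ε / 16) :=
            Real.rpow_le_rpow (Nat.cast_nonneg _) e5 (by positivity)
          exact mul_le_mul (le_max_left _ _) e7 (by positivity) (by positivity)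
      _ = τ := by
          rw [Real.mul_rpow (by positivity) (by positivity), ← Real.rpow_natCast (X : ℝ) 2,
            ← Real.rpow_mul (by positivity), hτ, hD, mul_assoc]
          congr 3
          push_cast
          ring
  -- the planes
  set S := (bx 4 X).filter fun x => Rep x ∧ q4 q x = 0 with hS
  set T := (bx 4 R).filter fun a => Rep a with hT
  set w : (Fin 4 → ℤ) → ℝ := fun a => if q4 q.adjugate a ≠ 0 then
    1 / (((ht a : ℝ) * ((q4 q.adjugate a).natAbs : ℝ)) ^ ((1 : ℝ) / 3)) else 0 with hw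
  have hw0 : ∀ a, 0 ≤ w a := by
    intro a
    rw [hw]
    dsimp only
    split_ifs
    · positivity
    · exact le_refl _
  have hsub : S ⊆ T.biUnion fun a => S.filter fun x => a ⬝ᵥ x = 0 := by
    intro x hx
    have hx' := hx
    rw [hS, mem_filter, mem_bx] at hx'
    obtain ⟨a, ha1, ha2, ha3⟩ := h4 X R x hX hx'.1 hRX hR1
    rw [mem_biUnion]
    refine ⟨a, ?_, ?_⟩
    · rw [hT, mem_filter, mem_bx]
      exact ⟨ha2, ha1⟩
    · rw [mem_filter]
      exact ⟨hx, ha3⟩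
  have hone : ∀ a ∈ T, (((S.filter fun x => a ⬝ᵥ x = 0).card : ℕ) : ℝ) ≤
      τ ^ 2 * (11 + 40 * d0 * X * w a) := by
    intro a ha
    rw [hT, mem_filter, mem_bx] at ha
    have e8 : 1 ≤ τ ^ 2 := one_le_pow₀ hτ1
    by_cases h0 : q4 q.adjugate a = 0
    · have e1 : (S.filter fun x => a ⬝ᵥ x = 0).card ≤ 1 := by
        rw [Finset.card_le_one]
        intro x hx y hy
        rw [mem_filter, hS, mem_filter] at hx hy
        have ha0 : a ≠ 0 := by
          rintro rfl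
          obtain ⟨-, i, hi, -⟩ := ha.2
          simp at hi
        exact h3 q hs hsq a ha0 h0 x y hx.1.2.1 hy.1.2.1 hx.1.2.2 hy.1.2.2 hx.2 hy.2
      have e2 : (((S.filter fun x => a ⬝ᵥ x = 0).card : ℕ) : ℝ) ≤ 1 := by exact_mod_cast e1
      have e3 : 0 ≤ 40 * d0 * X * w a := by
        have := hw0 a
        positivity
      nlinarith
    · have e1 := h1 q hs hdet a ha.2 h0 X (S.filter fun x => a ⬝ᵥ x = 0) hX (fun x hx => by
        rw [mem_filter, hS, mem_filter, mem_bx] at hx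
        exact ⟨hx.1.2.1, hx.1.1, hx.1.2.2, hx.2⟩)
      refine e1.trans ?_
      have e5 := hτd a ha.1 h0
      have e7 : ((Nat.divisors (2 * (q4 q.adjugate a).natAbs)).card : ℝ) ^ 2 ≤ τ ^ 2 := by gcongr
      have ew : w a = 1 / (((ht a : ℝ) * ((q4 q.adjugate a).natAbs : ℝ)) ^ ((1 : ℝ) / 3)) := by
        rw [hw]
        exact if_pos h0
      calc (1 : ℝ) + ((Nat.divisors (2 * (q4 q.adjugate a).natAbs)).card : ℝ) ^ 2 *
            (10 + 40 * (q.det.natAbs * X) /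
              (((ht a : ℝ) * ((q4 q.adjugate a).natAbs : ℝ)) ^ ((1 : ℝ) / 3)))
          ≤ τ ^ 2 * 1 + τ ^ 2 *
            (10 + 40 * (q.det.natAbs * X) /
              (((ht a : ℝ) * ((q4 q.adjugate a).natAbs : ℝ)) ^ ((1 : ℝ) / 3))) := by
            have e9 := mul_le_mul_of_nonneg_right e7
              (by positivity : (0 : ℝ) ≤ 10 + 40 * (q.det.natAbs * X) /
                (((ht a : ℝ) * ((q4 q.adjugate a).natAbs : ℝ)) ^ ((1 : ℝ) / 3)))
            linarith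
        _ = τ ^ 2 * (11 + 40 * d0 * X * w a) := by
            rw [ew, hd0]
            ring
  have hTc : (T.card : ℝ) ≤ 81 * (R : ℝ) ^ 4 := by
    have e4 := card_bx_le 4 hR1
    have e5 : (T.card : ℝ) ≤ ((bx 4 R).card : ℝ) := by
      exact_mod_cast Finset.card_le_card (Finset.filter_subset _ _)
    calc (T.card : ℝ) ≤ (3 * (R : ℝ)) ^ 4 := e5.trans e4
      _ = 81 * (R : ℝ) ^ 4 := by ring
  have hTs : ∑ a ∈ T, w a ≤ C3 * (R : ℝ) ^ 3 * (1 + Real.log R) := by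
    refine le_trans ?_ (hsum R hR1)
    have e0 : ∑ a ∈ (bx 4 R).filter (fun a => q4 q.adjugate a ≠ 0),
        1 / (((ht a : ℝ) * ((q4 q.adjugate a).natAbs : ℝ)) ^ ((1 : ℝ) / 3)) =
        ∑ a ∈ bx 4 R, w a := Finset.sum_filter _ _
    rw [e0]
    have hTsub : T ⊆ bx 4 R := fun a ha => (mem_filter.1 ha).1
    exact Finset.sum_le_sum_of_subset_of_nonneg hTsub fun a _ _ => hw0 a
  have hlog : 1 + Real.log R ≤ (4 + 4 / ε) * (X : ℝ) ^ (ε / 4) := by
    have e1 : Real.log R ≤ Real.log (4 * X) := Real.log_le_log (by positivity) hRle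
    rw [Real.log_mul (by norm_num) (by positivity)] at e1
    have e2 : Real.log 4 ≤ 3 := by
      have := Real.log_le_sub_one_of_pos (show (0 : ℝ) < 4 by norm_num)
      linarith
    have e4 : Real.log X ≤ (X : ℝ) ^ (ε / 4) / (ε / 4) :=
      Real.log_le_rpow_div (by positivity) (by positivity)
    have e6 : (X : ℝ) ^ (ε / 4) / (ε / 4) = 4 / ε * (X : ℝ) ^ (ε / 4) := by
      field_simp
    rw [e6] at e4
    nlinarith
  have hτsq : τ ^ 2 = D ^ 2 * (X : ℝ) ^ (ε / 4) := by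
    rw [hτ, mul_pow, ← Real.rpow_natCast ((X : ℝ) ^ (ε / 8)) 2, ← Real.rpow_mul (by positivity)]
    congr 2
    push_cast
    ring
  have hlogR : 0 ≤ 1 + Real.log R := by
    have := Real.log_nonneg hR1'
    linarith
  calc ((S.card : ℕ) : ℝ)
      ≤ ((T.biUnion fun a => S.filter fun x => a ⬝ᵥ x = 0).card : ℝ) := by
        exact_mod_cast Finset.card_le_card hsub
    _ ≤ ∑ a ∈ T, (((S.filter fun x => a ⬝ᵥ x = 0).card : ℕ) : ℝ) := by
        have e1 := Finset.card_biUnion_le (s := T) (t := fun a => S.filter fun x => a ⬝ᵥ x = 0)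
        exact_mod_cast e1
    _ ≤ ∑ a ∈ T, τ ^ 2 * (11 + 40 * d0 * X * w a) := Finset.sum_le_sum hone
    _ = τ ^ 2 * (11 * T.card + 40 * d0 * X * ∑ a ∈ T, w a) := by
        rw [← Finset.mul_sum, Finset.sum_add_distrib, Finset.sum_const, ← Finset.mul_sum,
          nsmul_eq_mul]
        ring
    _ ≤ τ ^ 2 * (11 * (81 * (16 * (X : ℝ) ^ 2)) + 40 * d0 * X *
          (C3 * (4 * X) * ((4 + 4 / ε) * (X : ℝ) ^ (ε / 4)))) := by
        have e1 : ∑ a ∈ T, w a ≤ C3 * (4 * X) * ((4 + 4 / ε) * (X : ℝ) ^ (ε / 4)) := by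
          refine hTs.trans ?_
          refine mul_le_mul ?_ hlog hlogR (by positivity)
          exact mul_le_mul_of_nonneg_left hR3 hC3
        have e2 : (T.card : ℝ) ≤ 81 * (16 * (X : ℝ) ^ 2) :=
          hTc.trans (by linarith)
        gcongr
    _ ≤ τ ^ 2 * (14256 * (X : ℝ) ^ 2 * (X : ℝ) ^ (ε / 4) + 40 * d0 * X *
          (C3 * (4 * X) * ((4 + 4 / ε) * (X : ℝ) ^ (ε / 4)))) := by
        have e1 : 11 * (81 * (16 * (X : ℝ) ^ 2)) ≤ 14256 * (X : ℝ) ^ 2 * (X : ℝ) ^ (ε / 4) := by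
          have e3 : 14256 * (X : ℝ) ^ 2 ≤ 14256 * (X : ℝ) ^ 2 * (X : ℝ) ^ (ε / 4) :=
            le_mul_of_one_le_right (by positivity) hX4
          linarith
        gcongr
    _ = D ^ 2 * (14256 + 160 * d0 * C3 * (4 + 4 / ε)) * ((X : ℝ) ^ 2 *
          ((X : ℝ) ^ (ε / 4) * (X : ℝ) ^ (ε / 4))) := by
        rw [hτsq]
        ring
    _ = D ^ 2 * (14256 + 160 * d0 * C3 * (4 + 4 / ε)) * (X : ℝ) ^ (2 + ε / 2) := by
        rw [← Real.rpow_add (by positivity), ← Real.rpow_natCast (X : ℝ) 2,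
          ← Real.rpow_add (by positivity)]
        congr 2
        push_cast
        ring
    _ ≤ D ^ 2 * (14256 + 160 * d0 * C3 * (4 + 4 / ε)) * (X : ℝ) ^ (2 + ε) := by
        have e1 : (X : ℝ) ^ (2 + ε / 2) ≤ (X : ℝ) ^ (2 + ε) :=
          Real.rpow_le_rpow_of_exponent_le hX1 (by linarith)
        exact mul_le_mul_of_nonneg_left e1 (by positivity)

end Pool.Agent.R38.QP
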