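import Pool.Agent.R38.QP.Box

/-!
# Project QP, part QUA: the number of points of the quadric (helper400)
-/

set_option autoImplicit false

namespace Pool.Agent.R38.QP

open Matrix Finset
open Pool.Agent.H548.WM (ht bx Rep mem_bx card_bx_le le_ht')
open Pool.Agent.R38.NC (qf Prim)

open Box in
/-- part QUA -/
theorem quaB_ (h1 : S_PLN) (h2 : S_SUMD) (h3 : S_TAN) (h4 : S_SIE) : S_QUA := by
  classical
  intro q hq hs ε hε
  have hd : q.det ≠ 0 := by
    intro h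
    apply hs
    rw [h]
    exact ⟨0, by norm_num⟩
  obtain ⟨C3, hC3, hsum⟩ := h2 q hq hd
  -- the divisor bound
  obtain ⟨C1, hC1, hdiv⟩ := Pool.Agent.Helper112.divisor_bound (ε / 8) (by positivity)
  set m : ℝ := 2 * (mx4 q.adjugate : ℝ) with hm
  set D : ℝ := max C1 1 * m ^ (ε / 8) with hD
  have hmx : (1 : ℝ) ≤ mx4 q.adjugate := by
    have : 1 ≤ mx4 q.adjugate := Nat.le_add_right _ _
    exact_mod_cast this
  have hm1 : (1 : ℝ) ≤ m := by rw [hm]; linarith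
  have hD1 : 1 ≤ D := by
    have h1 : (1 : ℝ) ≤ m ^ (ε / 8) := Real.one_le_rpow hm1 (by positivity)
    have h2 : (1 : ℝ) ≤ max C1 1 := le_max_right _ _
    rw [hD]
    nlinarith
  set K : ℝ := (q.det.natAbs : ℝ) with hK
  have hK0 : 0 ≤ K := by rw [hK]; positivity
  refine ⟨D ^ 2 * (891 + 40 * K * C3 * (1 + 2 / ε)) * 4 ^ (2 + ε), by positivity, ?_⟩
  intro X hX
  have hX1 : (1 : ℝ) ≤ X := by exact_mod_cast hX
  -- the size of the planes
  have hex : ∃ R : ℕ, 4 * X ≤ (R + 1) ^ 3 := by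
    refine ⟨4 * X, ?_⟩
    calc 4 * X ≤ (4 * X + 1) ^ 1 := by rw [pow_one]; omega
      _ ≤ (4 * X + 1) ^ 3 := Nat.pow_le_pow_right (by omega) (by norm_num)
  obtain ⟨B, hB, hBX, hB3⟩ : ∃ B : ℕ, 1 ≤ B ∧ 4 * X ≤ (B + 1) ^ 3 ∧ B ^ 3 ≤ 4 * X := by
    refine ⟨Nat.find hex, ?_, Nat.find_spec hex, ?_⟩
    · rw [Nat.one_le_iff_ne_zero]
      intro h0
      have := Nat.find_spec hex
      rw [h0] at this
      omega
    · have hB : 1 ≤ Nat.find hex := by
        rw [Nat.one_le_iff_ne_zero]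
        intro h0
        have := Nat.find_spec hex
        rw [h0] at this
        omega
      have h5 := Nat.find_min hex (m := Nat.find hex - 1) (by omega)
      rw [Nat.sub_add_cancel hB] at h5
      omega
  have hB1 : (1 : ℝ) ≤ B := by exact_mod_cast hB
  have hBB : B ≤ 4 * X := by
    refine le_trans ?_ hB3
    exact Nat.le_self_pow (by norm_num) B
  set Y : ℝ := 4 * (X : ℝ) with hY
  have hY1 : 1 ≤ Y := by rw [hY]; linarith
  have hBY : (B : ℝ) ≤ Y := by rw [hY]; exact_mod_cast hBB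
  have hB3Y : (B : ℝ) ^ 3 ≤ Y := by rw [hY]; exact_mod_cast hB3
  set τ : ℝ := D * (B : ℝ) ^ (ε / 4) with hτ
  have hB4 : (1 : ℝ) ≤ (B : ℝ) ^ (ε / 4) := Real.one_le_rpow hB1 (by positivity)
  have hτ1 : 1 ≤ τ := by
    rw [hτ]
    nlinarith
  have hτd : ∀ t : Fin 4 → ℤ, ht t ≤ B → q4 q.adjugate t ≠ 0 →
      ((Nat.divisors (2 * (q4 q.adjugate t).natAbs)).card : ℝ) ≤ τ := by
    intro t htB hdet
    have hpos : 1 ≤ (q4 q.adjugate t).natAbs := Nat.one_le_iff_ne_zero.2 (Int.natAbs_ne_zero.2 hdet)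
    refine (hdiv _ (by omega)).trans ?_
    have h4 := q4_le q.adjugate htB
    have h5 : ((2 * (q4 q.adjugate t).natAbs : ℕ) : ℝ) ≤ m * (B : ℝ) ^ 2 := by
      have h6 : 2 * (q4 q.adjugate t).natAbs ≤ 2 * mx4 q.adjugate * B ^ 2 := by
        calc 2 * (q4 q.adjugate t).natAbs ≤ 2 * (mx4 q.adjugate * B ^ 2) :=
              Nat.mul_le_mul_left _ h4
          _ = 2 * mx4 q.adjugate * B ^ 2 := by ring
      rw [hm]
      exact_mod_cast h6
    calc C1 * ((2 * (q4 q.adjugate t).natAbs : ℕ) : ℝ) ^ (ε / 8)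
        ≤ max C1 1 * (m * (B : ℝ) ^ 2) ^ (ε / 8) := by
          have h7 : ((2 * (q4 q.adjugate t).natAbs : ℕ) : ℝ) ^ (ε / 8) ≤
              (m * (B : ℝ) ^ 2) ^ (ε / 8) :=
            Real.rpow_le_rpow (Nat.cast_nonneg _) h5 (by positivity)
          exact mul_le_mul (le_max_left _ _) h7 (by positivity) (by positivity)
      _ = τ := by
          rw [Real.mul_rpow (by positivity) (by positivity), ← Real.rpow_natCast (B : ℝ) 2,
            ← Real.rpow_mul (by positivity), hτ, hD, mul_assoc]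
          congr 3
          push_cast
          ring
  -- the planes
  set T := (bx 4 B).filter fun t => Rep t with hTd
  set T' := (bx 4 B).filter fun t => q4 q.adjugate t ≠ 0 with hTd'
  set w : (Fin 4 → ℤ) → ℝ := fun t =>
    1 / (((ht t : ℝ) * ((q4 q.adjugate t).natAbs : ℝ)) ^ ((1 : ℝ) / 3)) with hw
  have hw0 : ∀ t, 0 ≤ w t := fun t => by rw [hw]; positivity
  have hsub : ((bx 4 X).filter fun x => Rep x ∧ q4 q x = 0) ⊆ T.biUnion fun t =>
      ((bx 4 X).filter fun x => Rep x ∧ q4 q x = 0 ∧ t ⬝ᵥ x = 0) := by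
    intro x hx
    rw [mem_filter, mem_bx] at hx
    obtain ⟨e1, e2, e3⟩ := hx
    obtain ⟨a, ha1, ha2, ha3⟩ := h4 X B x hX e1 hBX hB
    rw [mem_biUnion]
    refine ⟨a, ?_, ?_⟩
    · rw [hTd, mem_filter, mem_bx]
      exact ⟨ha2, ha1⟩
    · rw [mem_filter, mem_bx]
      exact ⟨e1, e2, e3, ha3⟩
  have hτsq1 : 1 ≤ τ ^ 2 := one_le_pow₀ hτ1
  have hone : ∀ t ∈ T,
      ((((bx 4 X).filter fun x => Rep x ∧ q4 q x = 0 ∧ t ⬝ᵥ x = 0).card : ℕ) : ℝ) ≤
      τ ^ 2 * (11 + 40 * K * X * (if q4 q.adjugate t ≠ 0 then w t else 0)) := by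
    intro t ht'
    rw [hTd, mem_filter, mem_bx] at ht'
    obtain ⟨e1, e2⟩ := ht'
    by_cases e3 : q4 q.adjugate t = 0
    · rw [if_neg (by simpa using e3)]
      have h0 : t ≠ 0 := by
        rintro rfl
        have h5 := e2.1
        have h6 : Finset.univ.gcd (0 : Fin 4 → ℤ) = 0 := Finset.gcd_eq_zero_iff.2 fun _ _ => rfl
        rw [h6] at h5
        exact zero_ne_one h5
      have h5 : (((bx 4 X).filter fun x => Rep x ∧ q4 q x = 0 ∧ t ⬝ᵥ x = 0).card : ℕ) ≤ 1 := by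
        rw [Finset.card_le_one]
        intro x hx y hy
        rw [mem_filter] at hx hy
        exact h3 q hq hs t h0 e3 x y hx.2.1 hy.2.1 hx.2.2.1 hy.2.2.1 hx.2.2.2 hy.2.2.2
      have h6 : ((((bx 4 X).filter fun x => Rep x ∧ q4 q x = 0 ∧ t ⬝ᵥ x = 0).card : ℕ) : ℝ) ≤ 1 := by
        exact_mod_cast h5
      refine h6.trans ?_
      rw [mul_zero, add_zero]
      nlinarith
    · rw [if_pos e3]
      have h4 := h1 q hq hd t e2 e3 X
        ((bx 4 X).filter fun x => Rep x ∧ q4 q x = 0 ∧ t ⬝ᵥ x = 0) hX (fun x hx => by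
          rw [mem_filter, mem_bx] at hx
          exact ⟨hx.2.1, hx.1, hx.2.2.1, hx.2.2.2⟩)
      refine h4.trans ?_
      have h5 := hτd t e1 e3
      have hwt : w t = 1 / (((ht t : ℝ) * ((q4 q.adjugate t).natAbs : ℝ)) ^ ((1 : ℝ) / 3)) := rfl
      rw [hwt]
      set v : ℝ := ((ht t : ℝ) * ((q4 q.adjugate t).natAbs : ℝ)) ^ ((1 : ℝ) / 3) with hv
      have hv0 : 0 ≤ v := by positivity
      have h6 : (0 : ℝ) ≤ 40 * (K * X) / v := by positivity
      have h7 : ((Nat.divisors (2 * (q4 q.adjugate t).natAbs)).card : ℝ) ^ 2 ≤ τ ^ 2 := by gcongr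
      calc (1 : ℝ) + ((Nat.divisors (2 * (q4 q.adjugate t).natAbs)).card : ℝ) ^ 2 *
            (10 + 40 * (K * X) / v)
          ≤ τ ^ 2 * 1 + τ ^ 2 * (10 + 40 * (K * X) / v) := by
            have h9 := mul_le_mul_of_nonneg_right h7
              (by positivity : (0 : ℝ) ≤ 10 + 40 * (K * X) / v)
            linarith
        _ = τ ^ 2 * (11 + 40 * K * X * (1 / v)) := by
            ring
  have hTc : (T.card : ℝ) ≤ 81 * (B : ℝ) ^ 4 := by
    have h4 := card_bx_le 4 hB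
    have h5 : (T.card : ℝ) ≤ ((bx 4 B).card : ℝ) := by
      exact_mod_cast Finset.card_le_card (Finset.filter_subset _ _)
    calc (T.card : ℝ) ≤ (3 * (B : ℝ)) ^ 4 := h5.trans h4
      _ = 81 * (B : ℝ) ^ 4 := by ring
  have hTs : ∑ t ∈ T, (if q4 q.adjugate t ≠ 0 then w t else 0) ≤
      C3 * (B : ℝ) ^ 3 * (1 + Real.log B) := by
    refine le_trans ?_ (hsum B hB)
    rw [← Finset.sum_filter]
    refine Finset.sum_le_sum_of_subset_of_nonneg ?_ fun t _ _ => hw0 t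
    intro t ht'
    rw [mem_filter, hTd, mem_filter] at ht'
    rw [mem_filter]
    exact ⟨ht'.1.1, ht'.2⟩
  have hlog : 1 + Real.log B ≤ (1 + 2 / ε) * (B : ℝ) ^ (ε / 2) := by
    have h4 : Real.log B ≤ (B : ℝ) ^ (ε / 2) / (ε / 2) :=
      Real.log_le_rpow_div (by positivity) (by positivity)
    have h5 : (1 : ℝ) ≤ (B : ℝ) ^ (ε / 2) := Real.one_le_rpow hB1 (by positivity)
    have h6 : (B : ℝ) ^ (ε / 2) / (ε / 2) = 2 / ε * (B : ℝ) ^ (ε / 2) := by
      field_simp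
    rw [h6] at h4
    linarith
  have hB2Y : (B : ℝ) ^ (ε / 2) ≤ Y ^ (ε / 2) :=
    Real.rpow_le_rpow (by positivity) hBY (by positivity)
  have hY2 : (1 : ℝ) ≤ Y ^ (ε / 2) := Real.one_le_rpow hY1 (by positivity)
  have hτsq : τ ^ 2 ≤ D ^ 2 * Y ^ (ε / 2) := by
    have : τ ^ 2 = D ^ 2 * (B : ℝ) ^ (ε / 2) := by
      rw [hτ, mul_pow, ← Real.rpow_natCast ((B : ℝ) ^ (ε / 4)) 2, ← Real.rpow_mul (by positivity)]
      congr 2
      push_cast
      ring
    rw [this]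
    gcongr
  have hB4Y : (B : ℝ) ^ 4 ≤ Y ^ 2 := by
    calc (B : ℝ) ^ 4 = (B : ℝ) ^ 3 * B := by ring
      _ ≤ Y * Y := mul_le_mul hB3Y hBY (by positivity) (by positivity)
      _ = Y ^ 2 := by ring
  have hXY : (X : ℝ) ≤ Y := by rw [hY]; linarith
  calc ((((bx 4 X).filter fun x => Rep x ∧ q4 q x = 0).card : ℕ) : ℝ)
      ≤ ((T.biUnion fun t =>
          ((bx 4 X).filter fun x => Rep x ∧ q4 q x = 0 ∧ t ⬝ᵥ x = 0)).card : ℝ) := by
        exact_mod_cast Finset.card_le_card hsub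
    _ ≤ ∑ t ∈ T, ((((bx 4 X).filter fun x => Rep x ∧ q4 q x = 0 ∧ t ⬝ᵥ x = 0).card : ℕ) : ℝ) := by
        have e1 := Finset.card_biUnion_le (s := T) (t := fun t =>
          ((bx 4 X).filter fun x => Rep x ∧ q4 q x = 0 ∧ t ⬝ᵥ x = 0))
        exact_mod_cast e1
    _ ≤ ∑ t ∈ T, τ ^ 2 *
          (11 + 40 * K * X * (if q4 q.adjugate t ≠ 0 then w t else 0)) :=
        Finset.sum_le_sum hone
    _ = τ ^ 2 * (11 * T.card + 40 * K * X *
          ∑ t ∈ T, (if q4 q.adjugate t ≠ 0 then w t else 0)) := by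
        rw [← Finset.mul_sum, Finset.sum_add_distrib, Finset.sum_const, ← Finset.mul_sum,
          nsmul_eq_mul]
        ring
    _ ≤ τ ^ 2 * (11 * (81 * (B : ℝ) ^ 4) + 40 * K * X *
          (C3 * (B : ℝ) ^ 3 * ((1 + 2 / ε) * (B : ℝ) ^ (ε / 2)))) := by
        have e1 : ∑ t ∈ T, (if q4 q.adjugate t ≠ 0 then w t else 0) ≤
            C3 * (B : ℝ) ^ 3 * ((1 + 2 / ε) * (B : ℝ) ^ (ε / 2)) :=
          hTs.trans (mul_le_mul_of_nonneg_left hlog (by positivity))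
        gcongr
    _ ≤ (D ^ 2 * Y ^ (ε / 2)) * (11 * (81 * Y ^ 2) + 40 * K * Y *
          (C3 * Y * ((1 + 2 / ε) * Y ^ (ε / 2)))) := by
        gcongr
    _ ≤ (D ^ 2 * Y ^ (ε / 2)) * (891 * Y ^ 2 * Y ^ (ε / 2) + 40 * K * Y *
          (C3 * Y * ((1 + 2 / ε) * Y ^ (ε / 2)))) := by
        have e3 : 11 * (81 * Y ^ 2) ≤ 891 * Y ^ 2 * Y ^ (ε / 2) := by
          have e4 : 891 * Y ^ 2 ≤ 891 * Y ^ 2 * Y ^ (ε / 2) :=
            le_mul_of_one_le_right (by positivity) hY2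
          linarith
        gcongr
    _ = D ^ 2 * (891 + 40 * K * C3 * (1 + 2 / ε)) * (Y ^ 2 * (Y ^ (ε / 2) * Y ^ (ε / 2))) := by
        ring
    _ = D ^ 2 * (891 + 40 * K * C3 * (1 + 2 / ε)) * Y ^ (2 + ε) := by
        rw [← Real.rpow_add (by positivity), ← Real.rpow_natCast Y 2,
          ← Real.rpow_add (by positivity)]
        congr 2
        push_cast
        ring
    _ = D ^ 2 * (891 + 40 * K * C3 * (1 + 2 / ε)) * 4 ^ (2 + ε) * (X : ℝ) ^ (2 + ε) := by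
        rw [hY, Real.mul_rpow (by norm_num) (by positivity)]
        ring

end Pool.Agent.R38.QP
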