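import Pool.Agent.R38.QP.Stm

/-!
# Project QP, part SIE: planes of small height through a point (by helper372)
-/

set_option autoImplicit false

namespace Pool.Agent.R38.QP

open Matrix Finset
open Pool.Agent.H548.WM (ht bx Rep le_ht' ht_le)

namespace Sie

theorem exists_rep {m : ℕ} (v : Fin m → ℤ) (hv : v ≠ 0) :
    ∃ (a : Fin m → ℤ) (c : ℤ), Rep a ∧ c ≠ 0 ∧ ∀ i, v i = c * a i := by
  classical
  obtain ⟨k, hk⟩ : ∃ k, v k ≠ 0 := Function.ne_iff.1 hv
  obtain ⟨g, u, hg, hu, hd⟩ := Pool.Agent.H548.WM.exists_gcd v ⟨k, hk⟩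
  choose w hw using hd
  have hg0 : (g : ℤ) ≠ 0 := by
    have : (1 : ℤ) ≤ g := by exact_mod_cast hg
    omega
  have huw : ∑ i, u i * w i = 1 := by
    have h1 : (g : ℤ) * ∑ i, u i * w i = g * 1 := by
      rw [Finset.mul_sum, mul_one]
      conv_rhs => rw [← hu]
      refine Finset.sum_congr rfl fun i _ => ?_
      rw [hw i]
      ring
    exact mul_left_cancel₀ hg0 h1
  have hne : (Finset.univ.filter fun i => w i ≠ 0).Nonempty := by
    refine ⟨k, ?_⟩
    rw [Finset.mem_filter]
    refine ⟨Finset.mem_univ _, fun h => hk ?_⟩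
    rw [hw k, h, mul_zero]
  set i := (Finset.univ.filter fun i => w i ≠ 0).min' hne with hi
  have hi0 : w i ≠ 0 := (mem_filter.1 (Finset.min'_mem _ hne)).2
  have hlt : ∀ j < i, w j = 0 := by
    intro j hj
    by_contra hc
    have : i ≤ j := Finset.min'_le _ j (by simp [hc])
    omega
  have hs2 : (w i).sign * (w i).sign = 1 := by
    rcases lt_or_gt_of_ne hi0 with h | h
    · rw [Int.sign_eq_neg_one_of_neg h]; norm_num
    · rw [Int.sign_eq_one_of_pos h]; norm_num
  have hs0 : (w i).sign ≠ 0 := fun h => by rw [h] at hs2; norm_num at hs2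
  refine ⟨fun j => (w i).sign * w j, g * (w i).sign, ⟨?_, i, ?_, ?_⟩, mul_ne_zero hg0 hs0, ?_⟩
  · have h1 : (Finset.univ.gcd fun j => (w i).sign * w j) ∣ 1 := by
      have h2 : ∑ j, ((w i).sign * u j) * ((w i).sign * w j) = 1 := by
        rw [← huw]
        refine Finset.sum_congr rfl fun j _ => ?_
        linear_combination (u j * w j) * hs2
      rw [← h2]
      exact Finset.dvd_sum fun j hj => Dvd.dvd.mul_left (Finset.gcd_dvd hj) _
    have h2 : normalize (Finset.univ.gcd fun j => (w i).sign * w j) =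
        Finset.univ.gcd fun j => (w i).sign * w j := Finset.normalize_gcd
    rw [← h2]
    exact normalize_eq_one.2 (isUnit_of_dvd_one h1)
  · change 0 < (w i).sign * w i
    rw [Int.sign_mul_self_eq_abs]
    exact abs_pos.2 hi0
  · intro j hj
    change (w i).sign * w j = 0
    rw [hlt j hj, mul_zero]
  · intro j
    rw [hw j]
    linear_combination (-(g : ℤ) * w j) * hs2

end Sie

open Sie in
theorem sie_ : S_SIE := by
  classical
  intro X R x hX hx hR hR1
  set s : Finset (Fin 4 → ℤ) := Fintype.piFinset fun _ : Fin 4 => Finset.Icc (0 : ℤ) R with hs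
  set t : Finset ℤ := Finset.Icc ((R : ℤ) * ∑ i, min (x i) 0) ((R : ℤ) * ∑ i, max (x i) 0) with ht'
  have hscard : s.card = (R + 1) ^ 4 := by
    rw [hs, Fintype.card_piFinset_const, Int.card_Icc]
    congr 1
  have hxi : ∀ i, |x i| ≤ (X : ℤ) := fun i => (le_ht' x i).trans (by exact_mod_cast hx)
  have hmm : (R : ℤ) * ∑ i, max (x i) 0 - (R : ℤ) * ∑ i, min (x i) 0 ≤ 4 * R * X := by
    rw [← mul_sub, ← Finset.sum_sub_distrib]
    have h1 : ∑ i, (max (x i) 0 - min (x i) 0) ≤ ∑ _i : Fin 4, (X : ℤ) := by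
      refine Finset.sum_le_sum fun i _ => ?_
      have := hxi i
      rw [abs_le] at this
      rcases le_total (x i) 0 with h | h
      · rw [max_eq_right h, min_eq_left h]; omega
      · rw [max_eq_left h, min_eq_right h]; omega
    have h2 : ∑ _i : Fin 4, (X : ℤ) = 4 * X := by simp
    rw [h2] at h1
    have h3 : (0 : ℤ) ≤ R := by positivity
    nlinarith
  have htcard : t.card ≤ 4 * R * X + 1 := by
    rw [ht', Int.card_Icc]
    have h4 : ((4 * R * X + 1 : ℕ) : ℤ) = 4 * R * X + 1 := by push_cast; ring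
    rw [Int.toNat_le, h4]
    linarith
  have hcard : t.card < s.card := by
    rw [hscard]
    have h1 : 4 * R * X ≤ R * (R + 1) ^ 3 := by
      calc 4 * R * X = R * (4 * X) := by ring
        _ ≤ _ := Nat.mul_le_mul_left _ hR
    have h2 : 2 ^ 3 ≤ (R + 1) ^ 3 := Nat.pow_le_pow_left (by omega) 3
    have h3 : (R + 1) ^ 4 = R * (R + 1) ^ 3 + (R + 1) ^ 3 := by ring
    rw [h3]
    norm_num at h2
    omega
  obtain ⟨a, ha, b, hb, hab, hfab⟩ := Finset.exists_ne_map_eq_of_card_lt_of_maps_to
    (f := fun a : Fin 4 → ℤ => ∑ i, a i * x i) hcard (by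
      intro a ha
      have ha' : ∀ i, 0 ≤ a i ∧ a i ≤ (R : ℤ) := by
        intro i
        have := Fintype.mem_piFinset.1 (Finset.mem_coe.1 ha) i
        exact Finset.mem_Icc.1 this
      refine Finset.mem_coe.2 (Finset.mem_Icc.2 ⟨?_, ?_⟩)
      · rw [Finset.mul_sum]
        refine Finset.sum_le_sum fun i _ => ?_
        obtain ⟨h1, h2⟩ := ha' i
        rcases le_total (x i) 0 with h | h
        · rw [min_eq_left h]; nlinarith
        · rw [min_eq_right h]; nlinarith
      · rw [Finset.mul_sum]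
        refine Finset.sum_le_sum fun i _ => ?_
        obtain ⟨h1, h2⟩ := ha' i
        rcases le_total (x i) 0 with h | h
        · rw [max_eq_right h]; nlinarith
        · rw [max_eq_left h]; nlinarith)
  have ha' : ∀ i, 0 ≤ a i ∧ a i ≤ (R : ℤ) := fun i =>
    Finset.mem_Icc.1 (Fintype.mem_piFinset.1 ha i)
  have hb' : ∀ i, 0 ≤ b i ∧ b i ≤ (R : ℤ) := fun i =>
    Finset.mem_Icc.1 (Fintype.mem_piFinset.1 hb i)
  obtain ⟨w, c, hw, hc, hwc⟩ := exists_rep (fun i => a i - b i) (by
    intro h
    apply hab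
    funext i
    have := congrFun h i
    simp only [Pi.zero_apply] at this
    omega)
  refine ⟨w, hw, ht_le fun i => ?_, ?_⟩
  · have h1 : |a i - b i| ≤ (R : ℤ) := by
      rw [abs_le]
      have := ha' i
      have := hb' i
      constructor <;> omega
    have h2 : |a i - b i| = |c| * |w i| := by
      rw [← abs_mul, ← hwc i]
    have h3 : 1 ≤ |c| := Int.one_le_abs hc
    have h4 : 0 ≤ |w i| := abs_nonneg _
    nlinarith
  · have h1 : c * (w ⬝ᵥ x) = 0 := by
      have h2 : c * (w ⬝ᵥ x) = ∑ i, (a i - b i) * x i := by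
        rw [dotProduct, Finset.mul_sum]
        refine Finset.sum_congr rfl fun i _ => ?_
        rw [hwc i]
        ring
      rw [h2]
      simp only [sub_mul, Finset.sum_sub_distrib]
      have h3 : ∑ i, a i * x i = ∑ i, b i * x i := hfab
      rw [h3, sub_self]
    rcases mul_eq_zero.1 h1 with h | h
    · exact absurd h hc
    · exact h

end Pool.Agent.R38.QP
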