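import Pool.Agent.R38.QP.Stm
import Pool.Agent.R38.NC.Sum

/-!
# Project QP: sums of negative powers of the values of a cubic form in 4 variables (`S_SUM4`)
-/

set_option autoImplicit false


namespace Pool.Agent.R38.QP

open Finset
open Pool.Agent.H548.WM (ht bx mem_bx le_ht')
open Pool.Agent.R38.NC
open Pool.Agent.R38.NC.SumAux (line deg_lin coeff_lin deg_pow coeff_pow)

namespace Sum4Aux

/-- the polynomial `n ↦ P (u + n e)` -/
noncomputable def lp (P : MvPolynomial (Fin 4) ℤ) (u e : Fin 4 → ℤ) : Polynomial ℤ :=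
  MvPolynomial.aeval (fun j => Polynomial.C (u j) + Polynomial.X * Polynomial.C (e j)) P

theorem lp_eval (P : MvPolynomial (Fin 4) ℤ) (u e : Fin 4 → ℤ) (n : ℤ) :
    (lp P u e).eval n = MvPolynomial.eval (fun j => u j + n * e j) P := by
  unfold lp
  have h1 : ∀ Q : MvPolynomial (Fin 4) ℤ, (Polynomial.eval n) (MvPolynomial.aeval
      (fun j => Polynomial.C (u j) + Polynomial.X * Polynomial.C (e j)) Q) =
      MvPolynomial.eval (fun j => u j + n * e j) Q := by
    intro Q
    induction Q using MvPolynomial.induction_on with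
    | C c => simp
    | add p q hp hq => rw [map_add, Polynomial.eval_add, hp, hq, map_add]
    | mul_X p j hp =>
      rw [map_mul, Polynomial.eval_mul, hp, map_mul, MvPolynomial.aeval_X, MvPolynomial.eval_X]
      simp
  exact h1 P

theorem lp_sum (P : MvPolynomial (Fin 4) ℤ) (u e : Fin 4 → ℤ) :
    lp P u e = ∑ m ∈ P.support, Polynomial.C (P.coeff m) *
      ((Polynomial.C (u 0) + Polynomial.X * Polynomial.C (e 0)) ^ (m 0) *
        (Polynomial.C (u 1) + Polynomial.X * Polynomial.C (e 1)) ^ (m 1) *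
        (Polynomial.C (u 2) + Polynomial.X * Polynomial.C (e 2)) ^ (m 2) *
        (Polynomial.C (u 3) + Polynomial.X * Polynomial.C (e 3)) ^ (m 3)) := by
  unfold lp
  rw [MvPolynomial.aeval_def, MvPolynomial.eval₂_eq']
  refine Finset.sum_congr rfl fun m _ => ?_
  rw [Fin.prod_univ_four]
  rfl

theorem lp_deg {P : MvPolynomial (Fin 4) ℤ} (hP : P.IsHomogeneous 3) (u e : Fin 4 → ℤ)
    (he : MvPolynomial.eval e P ≠ 0) : (lp P u e).natDegree = 3 := by
  have hm : ∀ m ∈ P.support, m 0 + m 1 + m 2 + m 3 = 3 := by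
    intro m hm
    have h4 := hP (MvPolynomial.mem_support_iff.1 hm)
    rw [Finsupp.weight_apply, Finsupp.sum_fintype _ _ (by simp), Fin.sum_univ_four] at h4
    simpa using h4
  have hle : (lp P u e).natDegree ≤ 3 := by
    rw [lp_sum]
    apply Polynomial.natDegree_sum_le_of_forall_le
    intro m hmm
    refine (Polynomial.natDegree_C_mul_le _ _).trans ?_
    refine (Polynomial.natDegree_mul_le_of_le (Polynomial.natDegree_mul_le_of_le
      (Polynomial.natDegree_mul_le_of_le (deg_pow _ _ _) (deg_pow _ _ _))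
      (deg_pow _ _ _)) (deg_pow _ _ _)).trans ?_
    exact (hm m hmm).le
  have hco : (lp P u e).coeff 3 = MvPolynomial.eval e P := by
    rw [lp_sum, Polynomial.finsetSum_coeff, MvPolynomial.eval_eq']
    refine Finset.sum_congr rfl fun m hmm => ?_
    have key : ((Polynomial.C (u 0) + Polynomial.X * Polynomial.C (e 0)) ^ (m 0) *
        (Polynomial.C (u 1) + Polynomial.X * Polynomial.C (e 1)) ^ (m 1) *
        (Polynomial.C (u 2) + Polynomial.X * Polynomial.C (e 2)) ^ (m 2) *
        (Polynomial.C (u 3) + Polynomial.X * Polynomial.C (e 3)) ^ (m 3)).coeff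
          (m 0 + m 1 + m 2 + m 3) = e 0 ^ m 0 * e 1 ^ m 1 * e 2 ^ m 2 * e 3 ^ m 3 := by
      rw [Polynomial.coeff_mul_add_eq_of_natDegree_le (Polynomial.natDegree_mul_le_of_le
        (Polynomial.natDegree_mul_le_of_le (deg_pow _ _ _) (deg_pow _ _ _)) (deg_pow _ _ _))
        (deg_pow _ _ _),
        Polynomial.coeff_mul_add_eq_of_natDegree_le (Polynomial.natDegree_mul_le_of_le
        (deg_pow _ _ _) (deg_pow _ _ _)) (deg_pow _ _ _),
        Polynomial.coeff_mul_add_eq_of_natDegree_le (deg_pow _ _ _) (deg_pow _ _ _),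
        coeff_pow, coeff_pow, coeff_pow, coeff_pow]
    rw [hm m hmm] at key
    rw [Polynomial.coeff_C_mul, Fin.prod_univ_four, key]
  apply le_antisymm hle
  apply Polynomial.le_natDegree_of_ne_zero
  rw [hco]
  exact he

theorem card_box (i0 : Fin 4) (A B : Finset ℤ) :
    (Fintype.piFinset (fun j : Fin 4 => if j = i0 then A else B)).card = A.card * B.card ^ 3 := by
  rw [Fintype.card_piFinset, Fin.prod_univ_four]
  fin_cases i0 <;> simp <;> ring

end Sum4Aux

open Sum4Aux in
theorem sum4_ : S_SUM4 := by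
  classical
  intro P hP hP0
  obtain ⟨e, he⟩ : ∃ e : Fin 4 → ℤ, MvPolynomial.eval e P ≠ 0 := by
    by_contra hcon
    push Not at hcon
    exact hP0 (MvPolynomial.funext fun x => by rw [hcon x, map_zero])
  obtain ⟨i0, hi0⟩ : ∃ i0, e i0 ≠ 0 := by
    by_contra hcon
    push Not at hcon
    apply he
    have h1 : e = 0 := funext hcon
    rw [h1, MvPolynomial.eval_zero, MvPolynomial.constantCoeff_eq]
    apply hP.coeff_eq_zero
    simp
  set M := ht e with hM
  refine ⟨(e i0).natAbs * (2 * (1 + (M : ℝ)) + 1) ^ 3 * 54, by positivity, ?_⟩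
  intro T hT
  set S := (bx 4 T).filter (fun t => MvPolynomial.eval t P ≠ 0) with hS
  set φ : (Fin 4 → ℤ) → (Fin 4 → ℤ) := fun t j => t j - (t i0 / e i0) * e j with hφ
  set B : Finset (Fin 4 → ℤ) := Fintype.piFinset (fun j : Fin 4 => if j = i0 then
    Finset.Ico 0 (((e i0).natAbs : ℕ) : ℤ) else
    Finset.Icc (-(((1 + M) * T : ℕ) : ℤ)) (((1 + M) * T : ℕ) : ℤ)) with hB
  have hdiv : ∀ t ∈ S, |t i0 / e i0| ≤ (T : ℤ) := by
    intro t htS
    rw [hS, Finset.mem_filter, mem_bx] at htS
    have h1 := le_ht' t i0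
    have h2 := Int.natAbs_ediv_le_natAbs (t i0) (e i0)
    have h3 : (ht t : ℤ) ≤ T := by exact_mod_cast htS.1
    rw [Int.abs_eq_natAbs] at h1 ⊢
    omega
  have hmaps : ∀ t ∈ S, φ t ∈ B := by
    intro t htS
    have hq := hdiv t htS
    rw [hS, Finset.mem_filter, mem_bx] at htS
    rw [hB, Fintype.mem_piFinset]
    intro j
    by_cases hj : j = i0
    · rw [if_pos hj, Finset.mem_Ico, hj]
      have h1 : φ t i0 = t i0 % e i0 := by
        have := Int.emod_add_mul_ediv (t i0) (e i0)
        simp only [hφ]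
        linarith
      rw [h1]
      refine ⟨Int.emod_nonneg _ hi0, ?_⟩
      have := Int.emod_lt_abs (t i0) hi0
      rwa [Int.abs_eq_natAbs] at this
    · rw [if_neg hj, Finset.mem_Icc, ← abs_le]
      have h1 := le_ht' t j
      have h2 := le_ht' e j
      have h3 : (ht t : ℤ) ≤ T := by exact_mod_cast htS.1
      calc |φ t j| ≤ |t j| + |(t i0 / e i0) * e j| := abs_sub _ _
        _ ≤ (T : ℤ) + T * M := by
            rw [abs_mul]
            have h4 : |t i0 / e i0| * |e j| ≤ (T : ℤ) * M :=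
              mul_le_mul hq h2 (abs_nonneg _) (by positivity)
            linarith
        _ = (((1 + M) * T : ℕ) : ℤ) := by
            push_cast
            ring
  set G : (Fin 4 → ℤ) → ℝ := fun t =>
    1 / (((MvPolynomial.eval t P).natAbs : ℝ) ^ ((1 : ℝ) / 3)) with hG
  have hfib : ∀ b ∈ B, ∑ t ∈ S.filter (fun t => φ t = b), G t ≤
      18 * (1 + Real.log ((2 * T + 1 : ℕ) : ℝ)) := by
    intro b _
    have hback : ∀ t, φ t = b → t = fun j => b j + (t i0 / e i0) * e j := by
      intro t ht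
      funext j
      rw [← ht]
      simp only [hφ]
      ring
    have hinj : Set.InjOn (fun t : Fin 4 → ℤ => t i0 / e i0)
        ((S.filter (fun t => φ t = b) : Finset (Fin 4 → ℤ)) : Set (Fin 4 → ℤ)) := by
      intro t ht t' ht' h
      rw [Finset.mem_coe, Finset.mem_filter] at ht ht'
      have h' : t i0 / e i0 = t' i0 / e i0 := h
      rw [hback t ht.2, hback t' ht'.2, h']
    have hline := line (lp P b e) (lp_deg hP b e he) T
    refine le_trans ?_ hline
    have h1 : ∑ t ∈ S.filter (fun t => φ t = b), G t =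
        ∑ n ∈ (S.filter (fun t => φ t = b)).image (fun t : Fin 4 → ℤ => t i0 / e i0),
          1 / ((((lp P b e).eval n).natAbs : ℝ) ^ ((1 : ℝ) / 3)) := by
      rw [Finset.sum_image hinj]
      refine Finset.sum_congr rfl fun t ht => ?_
      rw [Finset.mem_filter] at ht
      simp only [hG]
      rw [lp_eval, ← hback t ht.2]
    rw [h1]
    apply Finset.sum_le_sum_of_subset_of_nonneg
    · intro n hn
      rw [Finset.mem_image] at hn
      obtain ⟨t, ht, rfl⟩ := hn
      rw [Finset.mem_filter] at ht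
      rw [Finset.mem_filter, Finset.mem_Icc, ← abs_le]
      refine ⟨hdiv t ht.1, ?_⟩
      rw [lp_eval, ← hback t ht.2]
      exact (Finset.mem_filter.1 ht.1).2
    · intro n _ _
      positivity
  have hTr : (1 : ℝ) ≤ T := by exact_mod_cast hT
  have hlogT : 0 ≤ Real.log T := Real.log_nonneg hTr
  have hlog : 1 + Real.log ((2 * T + 1 : ℕ) : ℝ) ≤ 3 * (1 + Real.log T) := by
    have h1 : Real.log ((2 * T + 1 : ℕ) : ℝ) ≤ Real.log (3 * T) := by
      apply Real.log_le_log
      · positivity
      · push_cast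
        linarith
    rw [Real.log_mul (by norm_num) (by positivity)] at h1
    have h2 : Real.log 3 ≤ 3 - 1 := Real.log_le_sub_one_of_pos (by norm_num)
    linarith
  have hcard : (B.card : ℝ) ≤ (e i0).natAbs * ((2 * (1 + (M : ℝ)) + 1) * T) ^ 3 := by
    rw [hB, card_box, Int.card_Ico, Int.card_Icc]
    have h1 : ((((1 + M) * T : ℕ) : ℤ) + 1 - -(((1 + M) * T : ℕ) : ℤ)).toNat =
        2 * ((1 + M) * T) + 1 := by omega
    have h2 : ((((e i0).natAbs : ℕ) : ℤ) - 0).toNat = (e i0).natAbs := by omega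
    rw [h1, h2]
    push_cast
    gcongr
    nlinarith
  calc ∑ t ∈ S, G t = ∑ b ∈ B, ∑ t ∈ S.filter (fun t => φ t = b), G t :=
        (Finset.sum_fiberwise_of_maps_to hmaps G).symm
    _ ≤ ∑ b ∈ B, 18 * (1 + Real.log ((2 * T + 1 : ℕ) : ℝ)) := Finset.sum_le_sum hfib
    _ = B.card * (18 * (1 + Real.log ((2 * T + 1 : ℕ) : ℝ))) := by
        rw [Finset.sum_const, nsmul_eq_mul]
    _ ≤ ((e i0).natAbs * ((2 * (1 + (M : ℝ)) + 1) * T) ^ 3) *
        (18 * (3 * (1 + Real.log T))) := by
        apply mul_le_mul hcard _ _ (by positivity)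
        · linarith
        · have : 0 ≤ Real.log ((2 * T + 1 : ℕ) : ℝ) := Real.log_natCast_nonneg _
          positivity
    _ = (e i0).natAbs * (2 * (1 + (M : ℝ)) + 1) ^ 3 * 54 * (T : ℝ) ^ 3 * (1 + Real.log T) := by
        ring

end Pool.Agent.R38.QP
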