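import Mathlib
import Pool.Agent.R38.QP.Stm

set_option autoImplicit false

/-! Part SUMD: the sum over the planes, from SUM4. -/

namespace Pool.Agent.R38.QP

open Matrix Finset
open Pool.Agent.H548.WM (ht bx Rep)

namespace SumdAux

open MvPolynomial in
/-- the quadratic form as a polynomial -/
noncomputable def qp (A : Matrix (Fin 4) (Fin 4) ℤ) : MvPolynomial (Fin 4) ℤ :=
  ∑ j, ∑ k, C (A j k) * (X j * X k)

open MvPolynomial in
/-- a coordinate times the quadratic form -/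
noncomputable def cp (A : Matrix (Fin 4) (Fin 4) ℤ) (i : Fin 4) : MvPolynomial (Fin 4) ℤ :=
  X i * qp A

open MvPolynomial in
theorem eval_cp (A : Matrix (Fin 4) (Fin 4) ℤ) (i : Fin 4) (t : Fin 4 → ℤ) :
    eval t (cp A i) = t i * q4 A t := by
  rw [cp, qp, map_mul, eval_X, map_sum, q4, dotProduct]
  congr 1
  refine Finset.sum_congr rfl fun j _ => ?_
  rw [map_sum, Matrix.mulVec, dotProduct, Finset.mul_sum]
  refine Finset.sum_congr rfl fun k _ => ?_
  rw [map_mul, map_mul, eval_C, eval_X, eval_X]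
  ring

open MvPolynomial in
theorem hom_cp (A : Matrix (Fin 4) (Fin 4) ℤ) (i : Fin 4) : (cp A i).IsHomogeneous 3 := by
  have h1 : (qp A).IsHomogeneous 2 := by
    refine IsHomogeneous.sum _ _ _ fun j _ => IsHomogeneous.sum _ _ _ fun k _ => ?_
    have := (isHomogeneous_C (Fin 4) (A j k)).mul
      ((isHomogeneous_X ℤ j).mul (isHomogeneous_X ℤ k))
    simpa using this
  have := (isHomogeneous_X ℤ i).mul h1
  simpa [cp] using this

end SumdAux

open SumdAux in
theorem sumd_ (h : S_SUM4) : S_SUMD := by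
  classical
  intro q _ _
  obtain ⟨A, hA⟩ : ∃ A, A = q.adjugate := ⟨_, rfl⟩
  rw [← hA]
  have hC : ∀ i : Fin 4, ∃ C : ℝ, 0 ≤ C ∧ ∀ T : ℕ, 1 ≤ T →
      ∑ t ∈ (bx 4 T).filter (fun t => MvPolynomial.eval t (cp A i) ≠ 0),
        1 / (((MvPolynomial.eval t (cp A i)).natAbs : ℝ) ^ ((1 : ℝ) / 3)) ≤
        C * (T : ℝ) ^ 3 * (1 + Real.log T) := by
    intro i
    by_cases h0 : cp A i = 0
    · refine ⟨0, le_rfl, fun T _ => ?_⟩
      rw [h0, Finset.filter_false_of_mem (fun t _ => by simp)]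
      simp
    · exact h (cp A i) (hom_cp A i) h0
  choose C hC0 hC1 using hC
  refine ⟨∑ i, C i, Finset.sum_nonneg fun i _ => hC0 i, fun T hT => ?_⟩
  have hterm : ∀ a : Fin 4 → ℤ, q4 A a ≠ 0 →
      1 / (((ht a : ℝ) * ((q4 A a).natAbs : ℝ)) ^ ((1 : ℝ) / 3)) ≤
      ∑ i, if MvPolynomial.eval a (cp A i) ≠ 0 then
        1 / (((MvPolynomial.eval a (cp A i)).natAbs : ℝ) ^ ((1 : ℝ) / 3)) else 0 := by
    intro a ha
    obtain ⟨i, -, hi⟩ := Finset.exists_mem_eq_sup (Finset.univ : Finset (Fin 4))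
      Finset.univ_nonempty (fun i => (a i).natAbs)
    have hi' : ht a = (a i).natAbs := hi
    have hnn : ∀ j ∈ (Finset.univ : Finset (Fin 4)),
        0 ≤ (if MvPolynomial.eval a (cp A j) ≠ 0 then
        1 / (((MvPolynomial.eval a (cp A j)).natAbs : ℝ) ^ ((1 : ℝ) / 3)) else 0) := by
      intro j _
      split_ifs
      · positivity
      · exact le_rfl
    by_cases hai : a i = 0
    · have : (ht a : ℝ) = 0 := by rw [hi', hai]; simp
      rw [this, zero_mul, Real.zero_rpow (by norm_num), div_zero]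
      exact Finset.sum_nonneg hnn
    · refine le_trans (le_of_eq ?_) (Finset.single_le_sum hnn (Finset.mem_univ i))
      have hne : MvPolynomial.eval a (cp A i) ≠ 0 := by
        rw [eval_cp]; exact mul_ne_zero hai ha
      rw [if_pos hne, eval_cp, Int.natAbs_mul, hi']
      push_cast
      rfl
  calc ∑ a ∈ (bx 4 T).filter (fun a => q4 A a ≠ 0),
        1 / (((ht a : ℝ) * ((q4 A a).natAbs : ℝ)) ^ ((1 : ℝ) / 3))
      ≤ ∑ a ∈ (bx 4 T).filter (fun a => q4 A a ≠ 0),
        ∑ i, (if MvPolynomial.eval a (cp A i) ≠ 0 then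
          1 / (((MvPolynomial.eval a (cp A i)).natAbs : ℝ) ^ ((1 : ℝ) / 3)) else 0) :=
        Finset.sum_le_sum fun a ha => hterm a (Finset.mem_filter.1 ha).2
    _ ≤ ∑ a ∈ bx 4 T,
        ∑ i, (if MvPolynomial.eval a (cp A i) ≠ 0 then
          1 / (((MvPolynomial.eval a (cp A i)).natAbs : ℝ) ^ ((1 : ℝ) / 3)) else 0) := by
        refine Finset.sum_le_sum_of_subset_of_nonneg (Finset.filter_subset _ _) fun a _ _ => ?_
        refine Finset.sum_nonneg fun j _ => ?_
        split_ifs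
        · positivity
        · exact le_rfl
    _ = ∑ i, ∑ a ∈ (bx 4 T).filter (fun t => MvPolynomial.eval t (cp A i) ≠ 0),
          1 / (((MvPolynomial.eval a (cp A i)).natAbs : ℝ) ^ ((1 : ℝ) / 3)) := by
        rw [Finset.sum_comm]
        refine Finset.sum_congr rfl fun i _ => ?_
        rw [Finset.sum_filter]
    _ ≤ ∑ i, C i * (T : ℝ) ^ 3 * (1 + Real.log T) := Finset.sum_le_sum fun i _ => hC1 i T hT
    _ = (∑ i, C i) * (T : ℝ) ^ 3 * (1 + Real.log T) := by
        rw [Finset.sum_mul, Finset.sum_mul]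

end Pool.Agent.R38.QP
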