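import Pool.Agent.R38.QP.Stm

/-! QP-TAN: rational points in a tangent plane (helper656). -/

set_option autoImplicit false

namespace Pool.Agent.R38.QP

open Matrix Finset
open Pool.Agent.H548.WM (ht bx Rep)
open Pool.Agent.R38.NC (qf Prim)

namespace TanAux

lemma rep_eq {m : ℕ} {x y : Fin m → ℤ} (hx : Rep x) (hy : Rep y) {α β : ℤ} (hα : α ≠ 0)
    (h : ∀ i, α * x i = β * y i) : x = y := by
  have h1 : (Finset.univ.gcd fun i => α * x i) = normalize α * Finset.univ.gcd x :=
    Finset.gcd_mul_left
  have h2 : (Finset.univ.gcd fun i => β * y i) = normalize β * Finset.univ.gcd y :=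
    Finset.gcd_mul_left
  have h3 : (fun i => α * x i) = fun i => β * y i := funext h
  rw [h3, h2, hx.1, hy.1, mul_one, mul_one] at h1
  have h4 : Associated β α := (normalize_eq_normalize_iff_associated).1 h1
  rcases Int.associated_iff.1 h4 with h5 | h5
  · subst h5
    funext i
    exact mul_left_cancel₀ hα (h i)
  · exfalso
    have h6 : ∀ i, x i = -y i := by
      intro i
      apply mul_left_cancel₀ hα
      rw [h i, h5]
      ring
    obtain ⟨i, hi, hi'⟩ := hx.2
    obtain ⟨j, hj, hj'⟩ := hy.2
    rcases lt_trichotomy i j with h7 | h7 | h7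
    · have := hj' i h7
      have := h6 i
      omega
    · subst h7
      have := h6 i
      omega
    · have := hi' j h7
      have := h6 j
      omega

end TanAux

theorem tan_ (h : S_ISO) : S_TAN := by
  intro q hq hdet a ha hqa x y hx hy hqx hqy hax hay
  have hd : q.det ≠ 0 := fun h0 => hdet (by rw [h0]; exact ⟨0, by simp⟩)
  set p : Fin 4 → ℤ := q.adjugate.mulVec a with hp
  have hqp : q.mulVec p = q.det • a := by
    rw [hp, Matrix.mulVec_mulVec, Matrix.mul_adjugate, Matrix.smul_mulVec, Matrix.one_mulVec]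
  have hap : a ⬝ᵥ p = 0 := hqa
  have hp0 : p ≠ 0 := by
    intro h0
    rw [h0, Matrix.mulVec_zero] at hqp
    exact ha ((smul_eq_zero.1 hqp.symm).resolve_left hd)
  have hpp : q4 q p = 0 := by
    unfold q4
    rw [hqp, dotProduct_smul, dotProduct_comm, hap, smul_zero]
  have key : ∀ z : Fin 4 → ℤ, Rep z → q4 q z = 0 → a ⬝ᵥ z = 0 →
      ∃ s t : ℤ, s ≠ 0 ∧ t ≠ 0 ∧ ∀ i, s * z i = t * p i := by
    intro z hz hqz haz
    have h1 : z ⬝ᵥ q.mulVec p = 0 := by
      rw [hqp, dotProduct_smul, dotProduct_comm, haz, smul_zero]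
    obtain ⟨s, t, hst, he⟩ := h q hq hdet z p hqz hpp h1
    have hz0 : z ≠ 0 := by
      rintro rfl
      obtain ⟨i, hi, -⟩ := hz.2
      exact lt_irrefl _ hi
    refine ⟨s, t, ?_, ?_, fun i => congrFun he i⟩
    · rintro rfl
      rw [zero_smul] at he
      rcases smul_eq_zero.1 he.symm with h2 | h2
      · rcases hst with h3 | h3
        · exact h3 rfl
        · exact h3 h2
      · exact hp0 h2
    · rintro rfl
      rw [zero_smul] at he
      rcases smul_eq_zero.1 he with h2 | h2
      · rcases hst with h3 | h3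
        · exact h3 h2
        · exact h3 rfl
      · exact hz0 h2
  obtain ⟨s, t, hs, ht, e1⟩ := key x hx hqx hax
  obtain ⟨s', t', hs', ht', e2⟩ := key y hy hqy hay
  refine TanAux.rep_eq hx hy (α := t' * s) (β := t * s') (mul_ne_zero ht' hs) fun i => ?_
  have h1 := e1 i
  have h2 := e2 i
  linear_combination t' * h1 - t * h2

end Pool.Agent.R38.QP
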