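import Pool.Agent.R38.QP.Stm

/-! Part UNI: a primitive vector of length four is a row of a unimodular matrix. -/

set_option autoImplicit false

namespace Pool.Agent.R38.QP

open Matrix Finset
open Pool.Agent.R38.NC (qf Prim)

namespace UniAux

theorem bez (a b : ℤ) : ∃ g a' b' u v : ℤ, a = g * a' ∧ b = g * b' ∧ u * a' + v * b' = 1 := by
  by_cases h : Int.gcd a b = 0
  · rw [Int.gcd_eq_zero_iff] at h
    exact ⟨0, 1, 0, 1, 0, by simp [h.1], by simp [h.2], by ring⟩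
  · have h1 : (Int.gcd a b : ℤ) ∣ a := Int.gcd_dvd_left ..
    have h2 : (Int.gcd a b : ℤ) ∣ b := Int.gcd_dvd_right ..
    obtain ⟨a', ha⟩ := h1
    obtain ⟨b', hb⟩ := h2
    refine ⟨Int.gcd a b, a', b', Int.gcdA a b, Int.gcdB a b, ha, hb, ?_⟩
    have h3 := Int.gcd_eq_gcd_ab a b
    have h4 : (Int.gcd a b : ℤ) ≠ 0 := by exact_mod_cast h
    apply mul_left_cancel₀ h4
    linear_combination (-1 : ℤ) * h3 - Int.gcdA a b * ha - Int.gcdB a b * hb

theorem uni_core (x0 x1 x2 x3 : ℤ)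
    (h : ∀ d : ℤ, d ∣ x0 → d ∣ x1 → d ∣ x2 → d ∣ x3 → IsUnit d) :
    ∃ M : Matrix (Fin 4) (Fin 4) ℤ, M.det = 1 ∧ M 0 = ![x0, x1, x2, x3] := by
  obtain ⟨g1, a1, b1, u1, v1, e1, f1, k1⟩ := bez x0 x1
  obtain ⟨g2, a2, b2, u2, v2, e2, f2, k2⟩ := bez g1 x2
  obtain ⟨g3, a3, b3, u3, v3, e3, f3, k3⟩ := bez g2 x3
  have hg3 : IsUnit g3 := by
    apply h
    · exact ⟨a3 * a2 * a1, by rw [e1, e2, e3]; ring⟩
    · exact ⟨a3 * a2 * b1, by rw [f1, e2, e3]; ring⟩
    · exact ⟨a3 * b2, by rw [f2, e3]; ring⟩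
    · exact ⟨b3, f3⟩
  have hsq : g3 * g3 = 1 := by
    rcases Int.isUnit_iff.1 hg3 with h | h <;> rw [h] <;> norm_num
  have d1 : (!![a1, b1, 0, 0; -v1, u1, 0, 0; 0, 0, 1, 0; 0, 0, 0, 1] :
      Matrix (Fin 4) (Fin 4) ℤ).det = 1 := by
    rw [Matrix.det_succ_row_zero]
    simp [Fin.sum_univ_succ, Matrix.det_fin_three, Fin.succAbove]
    linear_combination k1
  have d2 : (!![a2, 0, b2, 0; 0, 1, 0, 0; -v2, 0, u2, 0; 0, 0, 0, 1] :
      Matrix (Fin 4) (Fin 4) ℤ).det = 1 := by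
    rw [Matrix.det_succ_row_zero]
    simp [Fin.sum_univ_succ, Matrix.det_fin_three, Fin.succAbove]
    linear_combination k2
  have d3 : (!![g2, 0, 0, x3; 0, 1, 0, 0; 0, 0, 1, 0; -(g3 * v3), 0, 0, g3 * u3] :
      Matrix (Fin 4) (Fin 4) ℤ).det = 1 := by
    rw [Matrix.det_succ_row_zero]
    simp [Fin.sum_univ_succ, Matrix.det_fin_three, Fin.succAbove]
    rw [e3, f3]
    linear_combination (g3 * g3) * k3 + hsq
  refine ⟨!![g2, 0, 0, x3; 0, 1, 0, 0; 0, 0, 1, 0; -(g3 * v3), 0, 0, g3 * u3] *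
    !![a2, 0, b2, 0; 0, 1, 0, 0; -v2, 0, u2, 0; 0, 0, 0, 1] *
    !![a1, b1, 0, 0; -v1, u1, 0, 0; 0, 0, 1, 0; 0, 0, 0, 1], ?_, ?_⟩
  · rw [Matrix.det_mul, Matrix.det_mul, d1, d2, d3]
    norm_num
  · funext j
    fin_cases j
    · simp [Matrix.mul_apply, Fin.sum_univ_succ]
      rw [e1, e2]
    · simp [Matrix.mul_apply, Fin.sum_univ_succ]
      rw [f1, e2]
    · simp [Matrix.mul_apply, Fin.sum_univ_succ]
      rw [f2]
    · simp [Matrix.mul_apply, Fin.sum_univ_succ]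

end UniAux

/-- Part UNI -/
theorem uni_ : S_UNI := by
  intro a ha
  obtain ⟨M, hM, hM0⟩ := UniAux.uni_core (a 0) (a 1) (a 2) (a 3) (by
    intro d h0 h1 h2 h3
    apply ha d
    intro i
    fin_cases i
    · exact h0
    · exact h1
    · exact h2
    · exact h3)
  have hrow : ∀ i, M 0 i = a i := by
    intro i
    rw [hM0]
    fin_cases i <;> rfl
  have hmul : M * M.adjugate = 1 := by
    rw [Matrix.mul_adjugate, hM, one_smul]
  refine ⟨M.adjugate.submatrix id (Equiv.swap (0 : Fin 4) 3), ?_, ?_⟩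
  · rw [Matrix.det_permute']
    have h1 : M.adjugate.det = 1 := by
      have := congrArg Matrix.det hmul
      rw [Matrix.det_mul, hM, one_mul, Matrix.det_one] at this
      exact this
    rw [h1, mul_one]
    exact Units.isUnit _
  · intro j
    have h1 : ∑ i, a i * M.adjugate i (Equiv.swap (0 : Fin 4) 3 j) =
        (M * M.adjugate) 0 (Equiv.swap (0 : Fin 4) 3 j) := by
      rw [Matrix.mul_apply]
      exact Finset.sum_congr rfl fun i _ => by rw [hrow]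
    simp only [Matrix.submatrix_apply, id]
    rw [h1, hmul, Matrix.one_apply]
    fin_cases j <;> simp [Equiv.swap_apply_def]

end Pool.Agent.R38.QP
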